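import Pool.Agent.H.MP_0e9c6a_an.Cau

set_option autoImplicit false
set_option maxHeartbeats 400000
open MeasureTheory Complex Set Filter Topology

namespace Pool.Agent.H.MP_0e9c6a_an

lemma L2_loc {f : ℝ → ℂ} (hf : L2 f) : LocallyIntegrable f volume :=
  fun x => ⟨Ioo (x - 1) (x + 1), Ioo_mem_nhds (by linarith) (by linarith), L2_intOn hf (by simp)⟩

/-- `t` is a Lebesgue point of `f` with value zero. -/
def Leb (f : ℝ → ℂ) (t : ℝ) : Prop :=
  ∀ e : ℝ, 0 < e → ∃ r0 : ℝ, 0 < r0 ∧ ∀ r, 0 < r → r ≤ r0 →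
    ∫ u in Icc (t - r) (t + r), ‖f u‖ ≤ e * r

lemma ae_Leb {f : ℝ → ℂ} (hf : L2 f) : ∀ᵐ t : ℝ, f t = 0 → Leb f t := by
  filter_upwards [IsUnifLocDoublingMeasure.ae_tendsto_average_norm_sub volume (L2_loc hf) 1]
    with t ht h0 e he
  have h1 := ht (l := 𝓝[>] (0 : ℝ)) (fun _ => t) id tendsto_id (by
    filter_upwards [self_mem_nhdsWithin] with r hr
    exact Metric.mem_closedBall_self (by simpa using le_of_lt hr))
  have h2 := h1.eventually (gt_mem_nhds (half_pos he))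
  obtain ⟨r0, hr0, h3⟩ := (nhdsGT_basis (0 : ℝ)).eventually_iff.mp h2
  refine ⟨r0 / 2, by linarith, fun r hr hrr => ?_⟩
  have h4 := h3 (show r ∈ Ioo 0 r0 from ⟨hr, by linarith⟩)
  simp only [id, h0, sub_zero] at h4
  rw [setAverage_eq, Real.closedBall_eq_Icc, smul_eq_mul, Real.volume_real_Icc_of_le (by linarith),
    inv_mul_lt_iff₀ (by linarith)] at h4
  nlinarith

noncomputable def kk (δ v : ℝ) : ℝ := δ / (max |v| δ) ^ 2

lemma kk_nonneg {δ : ℝ} (hδ : 0 < δ) (v : ℝ) : 0 ≤ kk δ v := by unfold kk; positivity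

lemma kk_le (f : ℝ → ℂ) (t : ℝ) {δ : ℝ} (hδ : 0 < δ) (u : ℝ) :
    ‖f u‖ * kk δ (u - t) ≤ 2 * ‖f u / (u - (t + δ * I))‖ := by
  have hM : δ ≤ max |u - t| δ := le_max_right _ _
  have hM2 : |u - t| ≤ max |u - t| δ := le_max_left _ _
  have hn : ‖(u : ℂ) - (t + δ * I)‖ ≤ 2 * max |u - t| δ := by
    have : (u : ℂ) - (t + δ * I) = ((u - t : ℝ) : ℂ) - δ * I := by push_cast; ring
    rw [this]
    refine (norm_sub_le _ _).trans ?_
    rw [norm_mul, Complex.norm_I, mul_one, Complex.norm_real, Complex.norm_real, Real.norm_eq_abs,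
      Real.norm_of_nonneg hδ.le]
    linarith
  have hp : 0 < ‖(u : ℂ) - (t + δ * I)‖ := norm_pos_iff.mpr (sub_ne u (by simpa using hδ.ne'))
  rw [norm_div]
  unfold kk
  generalize max |u - t| δ = M at *
  generalize ‖(u : ℂ) - (t + δ * I)‖ = b at *
  have hM0 : 0 < M := by linarith
  have : δ / M ^ 2 ≤ 2 / b := by
    rw [div_le_div_iff₀ (by positivity) hp]; nlinarith
  calc ‖f u‖ * (δ / M ^ 2) ≤ ‖f u‖ * (2 / b) := by gcongr
    _ = _ := by ring

lemma kk_int {f : ℝ → ℂ} (hf : L2 f) (t : ℝ) {δ : ℝ} (hδ : 0 < δ) :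
    Integrable (fun u => ‖f u‖ * kk δ (u - t)) := by
  refine Integrable.mono' ((CC_int hf (z := t + δ * I) (by simpa using hδ.ne')).norm.const_mul 2)
    ?_ (ae_of_all _ fun u => ?_)
  · have : Measurable (fun u : ℝ => kk δ (u - t)) := by unfold kk; fun_prop
    exact hf.1.norm.mul this.aestronglyMeasurable
  · rw [Real.norm_of_nonneg (mul_nonneg (norm_nonneg _) (kk_nonneg hδ _))]
    exact kk_le f t hδ u

noncomputable def TK (f : ℝ → ℂ) (t δ : ℝ) : ℝ := ∫ u, ‖f u‖ * kk δ (u - t)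

lemma TK_le {f : ℝ → ℂ} (hf : L2 f) (t : ℝ) {δ : ℝ} (hδ : 0 < δ) :
    TK f t δ ≤ (NN f + Real.pi) * δ ^ (-1 / 2 : ℝ) := by
  have h1 := integral_mono (kk_int hf t hδ)
    ((CC_int hf (z := t + δ * I) (by simpa using hδ.ne')).norm.const_mul 2) (kk_le f t hδ)
  rw [integral_const_mul] at h1
  have h2 := int_norm_le hf (z := t + δ * I) (by simpa using hδ)
  have e : ((t : ℂ) + δ * I).im = δ := by simp
  rw [e] at h2
  unfold TK
  linarith

lemma TK_rec {f : ℝ → ℂ} (hf : L2 f) (t : ℝ) {δ : ℝ} (hδ : 0 < δ) :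
    TK f t δ ≤ δ⁻¹ * (∫ u in Icc (t - 2 * δ) (t + 2 * δ), ‖f u‖) + TK f t (2 * δ) / 2 := by
  have i1 : Integrable ((Icc (t - 2 * δ) (t + 2 * δ)).indicator fun u => ‖f u‖) :=
    (integrable_indicator_iff measurableSet_Icc).mpr (L2_intOn hf (by simp)).norm
  have i2 := kk_int hf t (show 0 < 2 * δ by linarith)
  unfold TK
  rw [← integral_indicator measurableSet_Icc, ← integral_const_mul, ← integral_div,
    ← integral_add (i1.const_mul _) (i2.div_const _)]
  refine integral_mono (kk_int hf t hδ) ((i1.const_mul _).add (i2.div_const _)) fun u => ?_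
  beta_reduce
  have k2 := kk_nonneg (show 0 < 2 * δ by linarith) (u - t)
  by_cases hu : u ∈ Icc (t - 2 * δ) (t + 2 * δ)
  · rw [indicator_of_mem hu]
    have : kk δ (u - t) ≤ δ⁻¹ := by
      unfold kk
      have hM : δ ≤ max |u - t| δ := le_max_right _ _
      calc δ / (max |u - t| δ) ^ 2 ≤ δ / δ ^ 2 := by gcongr
        _ = δ⁻¹ := by field_simp
    nlinarith [norm_nonneg (f u), mul_nonneg (norm_nonneg (f u)) k2]
  · rw [indicator_of_notMem hu]
    have h2 : 2 * δ < |u - t| := by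
      by_contra hc
      have := abs_le.mp (not_lt.mp hc)
      exact hu ⟨by linarith [this.1], by linarith [this.2]⟩
    unfold kk
    rw [max_eq_left (by linarith), max_eq_left h2.le]
    apply le_of_eq; ring

lemma TK_tendsto {f : ℝ → ℂ} (hf : L2 f) {t : ℝ} (ht : Leb f t) :
    Tendsto (TK f t) (𝓝[>] 0) (𝓝 0) := by
  rw [Metric.tendsto_nhds]
  intro e he
  obtain ⟨r0, hr0, h⟩ := ht (e / 8) (by linarith)
  set r1 := r0 / 2 with hr1
  have hr1p : 0 < r1 := by linarith
  set K := (NN f + Real.pi) * r1 ^ (-1 / 2 : ℝ) / r1 with hK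
  have hc : 0 < NN f + Real.pi := by linarith [NN_nonneg f, Real.pi_pos]
  have hK0 : 0 < K := by positivity
  have base : ∀ δ, r1 ≤ δ → TK f t δ ≤ e / 2 + K * δ := by
    intro δ hδ
    have h1 := TK_le hf t (lt_of_lt_of_le hr1p hδ)
    have h2 : δ ^ (-1 / 2 : ℝ) ≤ r1 ^ (-1 / 2 : ℝ) :=
      Real.rpow_le_rpow_of_nonpos hr1p hδ (by norm_num)
    have h3 : K * r1 = (NN f + Real.pi) * r1 ^ (-1 / 2 : ℝ) := by rw [hK]; field_simp
    nlinarith
  have ind : ∀ n : ℕ, ∀ δ, r1 / 2 ^ n ≤ δ → TK f t δ ≤ e / 2 + K * δ := by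
    intro n
    induction n with
    | zero => intro δ hδ; exact base δ (by simpa using hδ)
    | succ n ih =>
      intro δ hδ
      by_cases h1 : r1 ≤ δ
      · exact base δ h1
      · have hδ0 : 0 < δ := lt_of_lt_of_le (by positivity) hδ
        have h2 := ih (2 * δ) (by
          rw [pow_succ, ← div_div, div_le_iff₀ (by norm_num)] at hδ; linarith)
        have h3 := h (2 * δ) (by linarith) (by linarith)
        have h4 := TK_rec hf t hδ0
        have h5 : δ⁻¹ * (∫ u in Icc (t - 2 * δ) (t + 2 * δ), ‖f u‖) ≤ e / 4 := by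
          rw [inv_mul_le_iff₀ hδ0]; linarith
        linarith
  filter_upwards [Ioo_mem_nhdsGT (show 0 < e / 2 / K by positivity)] with δ hδ
  obtain ⟨n, hn⟩ := pow_unbounded_of_one_lt (r1 / δ) (show (1 : ℝ) < 2 by norm_num)
  have h1 := ind n δ (by
    rw [div_lt_iff₀ hδ.1] at hn
    rw [div_le_iff₀ (by positivity)]; linarith)
  have h2 : 0 ≤ TK f t δ :=
    integral_nonneg fun u => mul_nonneg (norm_nonneg _) (kk_nonneg hδ.1 _)
  have h3 := hδ.2
  rw [lt_div_iff₀ hK0] at h3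
  rw [Real.dist_eq, sub_zero, abs_of_nonneg h2]
  linarith

lemma bdry_le {f : ℝ → ℂ} (hf : L2 f) (t : ℝ) {δ : ℝ} (hδ : 0 < δ) :
    ‖CC f (t + δ * I) + ∫ τ in {τ : ℝ | δ < |t - τ|}, f τ / ((t - τ : ℝ) : ℂ)‖ ≤ TK f t δ := by
  have hA : MeasurableSet {τ : ℝ | δ < |t - τ|} :=
    measurableSet_lt measurable_const (by fun_prop)
  have i1 := CC_int hf (z := t + δ * I) (by simpa using hδ.ne')
  have hpt : ∀ u : ℝ, ‖f u / (u - (t + δ * I)) +
      {τ : ℝ | δ < |t - τ|}.indicator (fun τ => f τ / ((t - τ : ℝ) : ℂ)) u‖ ≤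
        ‖f u‖ * kk δ (u - t) := by
    intro u
    have hne : (u : ℂ) - (t + δ * I) ≠ 0 := sub_ne u (by simpa using hδ.ne')
    by_cases hu : u ∈ {τ : ℝ | δ < |t - τ|}
    · rw [indicator_of_mem hu]
      have hu' : δ < |u - t| := by rw [abs_sub_comm]; exact hu
      have hv : ((t - u : ℝ) : ℂ) ≠ 0 := by
        have : t - u ≠ 0 := by
          intro h; rw [abs_sub_comm, h, abs_zero] at hu'; linarith
        exact_mod_cast this
      have e : f u / (u - (t + δ * I)) + f u / ((t - u : ℝ) : ℂ) =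
          f u * (-(δ * I) / ((u - (t + δ * I)) * ((t - u : ℝ) : ℂ))) := by
        field_simp
        push_cast; ring
      rw [e, norm_mul, norm_div, norm_neg, norm_mul, norm_mul, Complex.norm_I, mul_one,
        Complex.norm_real, Complex.norm_real, Real.norm_of_nonneg hδ.le, Real.norm_eq_abs,
        abs_sub_comm]
      unfold kk
      rw [max_eq_left hu'.le, sq]
      have h3 : |u - t| ≤ ‖(u : ℂ) - (t + δ * I)‖ := by
        have := Complex.abs_re_le_norm ((u : ℂ) - (t + δ * I))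
        simpa using this
      have h4 : 0 < |u - t| := by linarith
      gcongr
    · rw [indicator_of_notMem hu, add_zero, norm_div]
      have hu' : |u - t| ≤ δ := by rw [abs_sub_comm]; exact not_lt.mp hu
      unfold kk
      rw [max_eq_right hu']
      have h3 : δ ≤ ‖(u : ℂ) - (t + δ * I)‖ := by
        have := abs_im_le u (t + δ * I)
        simpa [abs_of_pos hδ] using this
      calc ‖f u‖ / ‖(u : ℂ) - (t + δ * I)‖ ≤ ‖f u‖ / δ := by gcongr
        _ = _ := by field_simp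
  have i2 : Integrable ({τ : ℝ | δ < |t - τ|}.indicator (fun τ => f τ / ((t - τ : ℝ) : ℂ))) := by
    refine Integrable.mono' (i1.norm.add (kk_int hf t hδ)) ?_ (ae_of_all _ fun u => ?_)
    · refine AEStronglyMeasurable.indicator ?_ hA
      have : Measurable (fun τ : ℝ => (((t - τ : ℝ) : ℂ))⁻¹) := by fun_prop
      simp only [div_eq_mul_inv]; exact hf.1.mul this.aestronglyMeasurable
    · have h1 := hpt u
      have h2 := norm_sub_le (f u / (u - (t + δ * I)) +
        {τ : ℝ | δ < |t - τ|}.indicator (fun τ => f τ / ((t - τ : ℝ) : ℂ)) u)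
        (f u / (u - (t + δ * I)))
      rw [add_sub_cancel_left] at h2
      simp only [Pi.add_apply]
      linarith
  unfold CC TK
  rw [← integral_indicator hA, ← integral_add i1 i2]
  exact norm_integral_le_of_norm_le (kk_int hf t hδ) (ae_of_all _ hpt)

lemma bdry {f : ℝ → ℂ} (hf : L2 f) {t : ℝ} (ht : Leb f t) {a : ℂ}
    (h : Tendsto (fun δ : ℝ => (∫ τ in {τ : ℝ | δ < |t - τ|}, f τ / ((t - τ : ℝ) : ℂ)) + a)
      (𝓝[>] 0) (𝓝 0)) :
    Tendsto (fun δ : ℝ => CC f (t + δ * I)) (𝓝[>] 0) (𝓝 a) := by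
  have h1 : Tendsto (fun δ : ℝ => CC f (t + δ * I) +
      ∫ τ in {τ : ℝ | δ < |t - τ|}, f τ / ((t - τ : ℝ) : ℂ)) (𝓝[>] 0) (𝓝 0) := by
    refine squeeze_zero_norm' ?_ (TK_tendsto hf ht)
    filter_upwards [self_mem_nhdsWithin] with δ hδ using bdry_le hf t hδ
  have h2 := (h1.sub h).add_const a
  simp only [sub_zero, zero_add] at h2
  refine h2.congr fun δ => ?_
  ring

lemma dens_sub {S : Set ℝ} (hS : MeasurableSet S) (h0 : 0 < volume S) :
    ∃ r0 : ℝ, 0 < r0 ∧ r0 ≤ 1 ∧ ∃ S' : Set ℝ, S' ⊆ S ∧ MeasurableSet S' ∧ 0 < volume S' ∧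
      ∀ x ∈ S', ∀ r, 0 < r → r ≤ r0 →
        volume (Ioo (x - r) (x + r) \ S) ≤ ENNReal.ofReal (r / 105) := by
  set A : ℕ → Set ℝ := fun n => {x | ∀ q : ℚ, 0 < (q : ℝ) → (q : ℝ) ≤ 2 / (n + 1) →
    volume (Ioo (x - q) (x + q) \ S) ≤ ENNReal.ofReal (q / 210)} with hA
  have hAm : ∀ n, MeasurableSet (A n) := by
    intro n
    simp only [hA, setOf_forall]
    refine MeasurableSet.iInter fun q => MeasurableSet.iInter fun _ => MeasurableSet.iInter
      fun _ => ?_
    refine measurableSet_le ?_ measurable_const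
    have hm : MeasurableSet {p : ℝ × ℝ | (p.1 - q < p.2 ∧ p.2 < p.1 + q) ∧ p.2 ∉ S} := by
      refine MeasurableSet.inter (MeasurableSet.inter ?_ ?_) (measurable_snd hS.compl)
      · exact measurableSet_lt (by fun_prop) measurable_snd
      · exact measurableSet_lt measurable_snd (by fun_prop)
    exact measurable_measure_prodMk_left (ν := volume) hm
  have hae : ∀ᵐ x : ℝ, x ∈ S → x ∈ ⋃ n, A n := by
    filter_upwards [Besicovitch.ae_tendsto_measure_inter_div_of_measurableSet volume hS.compl]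
      with x hx hxS
    rw [indicator_of_notMem (by simpa using hxS)] at hx
    have h2 := hx.eventually (gt_mem_nhds (show (0 : ENNReal) < ENNReal.ofReal (1 / 420) by
      simp))
    obtain ⟨r0, hr0, h3⟩ := (nhdsGT_basis (0 : ℝ)).eventually_iff.mp h2
    obtain ⟨n, hn⟩ := exists_nat_gt (2 / r0)
    refine mem_iUnion.mpr ⟨n, fun q hq hqn => ?_⟩
    have hlt : (q : ℝ) < r0 := by
      refine lt_of_le_of_lt hqn ?_
      rw [div_lt_iff₀ hr0] at hn
      rw [div_lt_iff₀ (by positivity)]; nlinarith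
    have h4 := (h3 (show (q : ℝ) ∈ Ioo 0 r0 from ⟨hq, hlt⟩)).le
    rw [Real.volume_closedBall, ENNReal.div_le_iff (by simpa using hq) ENNReal.ofReal_ne_top,
      ← ENNReal.ofReal_mul (by norm_num)] at h4
    refine le_trans (measure_mono ?_) (h4.trans (le_of_eq ?_))
    · intro u hu
      refine ⟨hu.2, ?_⟩
      rw [Real.closedBall_eq_Icc]; exact Ioo_subset_Icc_self hu.1
    · congr 1; ring
  have hex : ∃ n, 0 < volume (S ∩ A n) := by
    by_contra hc
    push Not at hc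
    have h1 : volume (⋃ n, S ∩ A n) = 0 :=
      measure_iUnion_null fun n => le_antisymm (hc n) bot_le
    have h2 : volume S ≤ volume (⋃ n, S ∩ A n) := by
      apply measure_mono_ae
      filter_upwards [hae] with x hx hxS
      obtain ⟨n, hn⟩ := mem_iUnion.mp (hx hxS)
      exact mem_iUnion.mpr ⟨n, hxS, hn⟩
    rw [h1] at h2
    exact absurd h0 (not_lt.mpr h2)
  obtain ⟨n, hn⟩ := hex
  have hn1 : (0 : ℝ) < n + 1 := by positivity
  refine ⟨1 / (n + 1), by positivity, ?_, S ∩ A n, inter_subset_left, hS.inter (hAm n), hn, ?_⟩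
  · rw [div_le_one hn1]; linarith [Nat.cast_nonneg (α := ℝ) n]
  intro x hx r hr hrn
  obtain ⟨q, hq1, hq2⟩ := exists_rat_btwn (show r < 2 * r by linarith)
  have h1 := hx.2 q (by linarith) (by
    have : 2 / ((n : ℝ) + 1) = 2 * (1 / (n + 1)) := by ring
    linarith)
  refine le_trans (measure_mono ?_) (h1.trans (ENNReal.ofReal_le_ofReal (by linarith)))
  exact diff_subset_diff_left (Ioo_subset_Ioo (by linarith) (by linarith))

end Pool.Agent.H.MP_0e9c6a_an
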