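import Pool.Agent.H.MP_0e9c6a_an.TC

set_option autoImplicit false
set_option maxHeartbeats 400000
open MeasureTheory Complex Set Filter Topology

namespace Pool.Agent.H.MP_0e9c6a_an

/-- Square integrability in elementary form. -/
def L2 (f : ℝ → ℂ) : Prop := AEStronglyMeasurable f volume ∧ Integrable (fun u => ‖f u‖ ^ 2)

noncomputable def NN (f : ℝ → ℂ) : ℝ := ∫ u, ‖f u‖ ^ 2

lemma NN_nonneg (f : ℝ → ℂ) : 0 ≤ NN f := integral_nonneg fun _ => by positivity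

/-- Cauchy transform. -/
noncomputable def CC (f : ℝ → ℂ) (z : ℂ) : ℂ := ∫ u : ℝ, f u / (u - z)

lemma ker_eq (x : ℝ) {y : ℝ} (hy : y ≠ 0) (u : ℝ) :
    ((u - x) ^ 2 + y ^ 2)⁻¹ = (y ^ 2)⁻¹ * (1 + ((u - x) / y) ^ 2)⁻¹ := by
  field_simp
  ring

lemma ker_int (x : ℝ) {y : ℝ} (hy : y ≠ 0) :
    Integrable (fun u : ℝ => ((u - x) ^ 2 + y ^ 2)⁻¹) := by
  simp only [ker_eq x hy]
  exact ((integrable_inv_one_add_sq.comp_div hy).comp_sub_right x).const_mul _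

lemma ker_val (x : ℝ) {y : ℝ} (hy : y ≠ 0) :
    ∫ u : ℝ, ((u - x) ^ 2 + y ^ 2)⁻¹ = Real.pi / |y| := by
  simp only [ker_eq x hy]
  rw [integral_const_mul, integral_sub_right_eq_self (fun u : ℝ => (1 + (u / y) ^ 2)⁻¹),
    Measure.integral_comp_div (fun u : ℝ => (1 + u ^ 2)⁻¹), integral_univ_inv_one_add_sq,
    smul_eq_mul, ← sq_abs]
  have : |y| ≠ 0 := abs_ne_zero.mpr hy
  field_simp

lemma normsq_sub (u : ℝ) (z : ℂ) : ‖(u : ℂ) - z‖ ^ 2 = (u - z.re) ^ 2 + z.im ^ 2 := by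
  rw [← Complex.normSq_eq_norm_sq, Complex.normSq_apply]; simp; ring

lemma sub_ne (u : ℝ) {z : ℂ} (hz : z.im ≠ 0) : (u : ℂ) - z ≠ 0 := by
  intro h
  have := congrArg Complex.im h
  simp at this; exact hz this

lemma amgm (f : ℝ → ℂ) {z : ℂ} (hz : z.im ≠ 0) {ρ : ℝ} (hρ : 0 < ρ) (u : ℝ) :
    ‖f u / (u - z)‖ ≤ ρ / 2 * ‖f u‖ ^ 2 + ρ⁻¹ / 2 * ((u - z.re) ^ 2 + z.im ^ 2)⁻¹ := by
  rw [norm_div, ← normsq_sub]
  have h : 0 < ‖(u : ℂ) - z‖ := norm_pos_iff.mpr (sub_ne u hz)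
  generalize ‖(u : ℂ) - z‖ = b at *
  generalize ‖f u‖ = a
  have : ρ / 2 * a ^ 2 + ρ⁻¹ / 2 * (b ^ 2)⁻¹ - a / b = (ρ * a * b - 1) ^ 2 / (2 * ρ * b ^ 2) := by
    field_simp; ring
  have h2 : 0 ≤ (ρ * a * b - 1) ^ 2 / (2 * ρ * b ^ 2) := by positivity
  linarith

lemma CC_meas {f : ℝ → ℂ} (hf : L2 f) (z : ℂ) :
    AEStronglyMeasurable (fun u : ℝ => f u / (u - z)) volume := by
  have : Measurable (fun u : ℝ => ((u : ℂ) - z)⁻¹) := by fun_prop
  simp only [div_eq_mul_inv]; exact hf.1.mul this.aestronglyMeasurable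

lemma CC_int {f : ℝ → ℂ} (hf : L2 f) {z : ℂ} (hz : z.im ≠ 0) :
    Integrable (fun u : ℝ => f u / (u - z)) :=
  Integrable.mono' ((hf.2.const_mul ((1 : ℝ) / 2)).add ((ker_int z.re hz).const_mul (1⁻¹ / 2)))
    (CC_meas hf z) (ae_of_all _ fun u => amgm f hz one_pos u)

lemma int_norm_le {f : ℝ → ℂ} (hf : L2 f) {z : ℂ} (hz : 0 < z.im) :
    ∫ u : ℝ, ‖f u / (u - z)‖ ≤ (NN f + Real.pi) / 2 * z.im ^ (-1 / 2 : ℝ) := by
  set ρ : ℝ := z.im ^ (-1 / 2 : ℝ) with hρ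
  have hρ0 : 0 < ρ := Real.rpow_pos_of_pos hz _
  have h1 := integral_mono (CC_int hf hz.ne').norm
    ((hf.2.const_mul (ρ / 2)).add ((ker_int z.re hz.ne').const_mul (ρ⁻¹ / 2)))
    (fun u => amgm f hz.ne' hρ0 u)
  refine h1.trans ?_
  simp only [Pi.add_apply]
  rw [integral_add (hf.2.const_mul (ρ / 2)) ((ker_int z.re hz.ne').const_mul (ρ⁻¹ / 2)),
    integral_const_mul, integral_const_mul, ker_val _ hz.ne', abs_of_pos hz]
  have e : ρ * ρ * z.im = 1 := by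
    rw [hρ, ← Real.rpow_add hz]
    norm_num
    rw [Real.rpow_neg_one]; field_simp
  have e2 : ρ⁻¹ / 2 * (Real.pi / z.im) = Real.pi / 2 * ρ := by
    field_simp
    linear_combination -e
  rw [e2, NN]
  apply le_of_eq; ring

lemma CC_bound {f : ℝ → ℂ} (hf : L2 f) {z : ℂ} (hz : 0 < z.im) :
    ‖CC f z‖ ≤ (NN f + Real.pi) / 2 * z.im ^ (-1 / 2 : ℝ) :=
  (norm_integral_le_integral_norm _).trans (int_norm_le hf hz)

lemma abs_im_le (u : ℝ) (z : ℂ) : |z.im| ≤ ‖(u : ℂ) - z‖ := by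
  have := Complex.abs_im_le_norm ((u : ℂ) - z)
  simpa using this

lemma CC_hasDeriv {f : ℝ → ℂ} (hf : L2 f) {z : ℂ} (hz : 0 < z.im) :
    HasDerivAt (CC f) (∫ u : ℝ, f u / (u - z) ^ 2) z := by
  have hball : ∀ w ∈ Metric.ball z (z.im / 2), z.im / 2 < w.im := by
    intro w hw
    rw [Metric.mem_ball, dist_eq_norm] at hw
    have := Complex.abs_im_le_norm (w - z)
    rw [sub_im] at this
    linarith [(abs_lt.mp (this.trans_lt hw)).1]
  refine (hasDerivAt_integral_of_dominated_loc_of_deriv_le (μ := volume)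
    (F := fun (w : ℂ) (u : ℝ) => f u / (u - w)) (F' := fun (w : ℂ) (u : ℝ) => f u / (u - w) ^ 2)
    (bound := fun u => 4 / z.im * ‖f u / (u - z)‖)
    (Metric.ball_mem_nhds z (half_pos hz)) (Eventually.of_forall fun w => CC_meas hf w)
    (CC_int hf hz.ne') ?_ ?_ ((CC_int hf hz.ne').norm.const_mul _) ?_).2
  · have : Measurable (fun u : ℝ => (((u : ℂ) - z) ^ 2)⁻¹) := by fun_prop
    simp only [div_eq_mul_inv]; exact hf.1.mul this.aestronglyMeasurable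
  · refine ae_of_all _ fun u w hw => ?_
    have h1 := hball w hw
    have h2 : z.im / 2 < ‖(u : ℂ) - w‖ := by
      have := abs_im_le u w
      linarith [le_abs_self w.im]
    have h3 : ‖(u : ℂ) - z‖ ≤ 2 * ‖(u : ℂ) - w‖ := by
      rw [Metric.mem_ball, dist_eq_norm] at hw
      have : (u : ℂ) - z = (u - w) + (w - z) := by ring
      rw [this]
      linarith [norm_add_le ((u : ℂ) - w) (w - z)]
    have h4 : 0 < ‖(u : ℂ) - z‖ := norm_pos_iff.mpr (sub_ne u hz.ne')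
    rw [norm_div, norm_div, norm_pow]
    have h5 : 0 < ‖(u : ℂ) - w‖ := by linarith
    rw [mul_div_assoc', div_le_div_iff₀ (by positivity) h4]
    have h6 : ‖(u : ℂ) - z‖ ≤ 4 / z.im * ‖(u : ℂ) - w‖ ^ 2 := by
      rw [div_mul_eq_mul_div, le_div_iff₀ hz]
      nlinarith
    calc ‖f u‖ * ‖(u : ℂ) - z‖ ≤ ‖f u‖ * (4 / z.im * ‖(u : ℂ) - w‖ ^ 2) := by gcongr
      _ = _ := by ring
  · refine ae_of_all _ fun u w hw => ?_
    have h1 := hball w hw
    have hne : (u : ℂ) - w ≠ 0 := sub_ne u (by linarith)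
    have := (((hasDerivAt_id w).const_sub (u : ℂ)).inv hne).const_mul (f u)
    simp only [id] at this
    refine HasDerivAt.congr_deriv (f := fun x => f u / (u - x)) ?_ (by ring :
      f u * (- -1 / ((u : ℂ) - w) ^ 2) = f u / (u - w) ^ 2)
    simpa only [div_eq_mul_inv, Pi.inv_apply] using this

lemma CC_diff {f : ℝ → ℂ} (hf : L2 f) : DifferentiableOn ℂ (CC f) UH :=
  fun _ hz => (CC_hasDeriv hf hz).differentiableAt.differentiableWithinAt

lemma deriv_bound {f : ℝ → ℂ} (hf : L2 f) {z : ℂ} (hz : 0 < z.im) :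
    ‖deriv (CC f) z‖ ≤ (NN f + Real.pi) / 2 * z.im ^ (-3 / 2 : ℝ) := by
  rw [(CC_hasDeriv hf hz).deriv]
  have h1 : ‖∫ u : ℝ, f u / (u - z) ^ 2‖ ≤ ∫ u : ℝ, z.im⁻¹ * ‖f u / (u - z)‖ := by
    refine norm_integral_le_of_norm_le ((CC_int hf hz.ne').norm.const_mul _)
      (ae_of_all _ fun u => ?_)
    have h2 : z.im ≤ ‖(u : ℂ) - z‖ := (le_abs_self _).trans (abs_im_le u z)
    have h4 : 0 < ‖(u : ℂ) - z‖ := by linarith
    rw [norm_div, norm_div, norm_pow, sq, ← div_div, div_eq_inv_mul (‖f u‖ / _)]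
    gcongr
  refine h1.trans ?_
  rw [integral_const_mul]
  have e : z.im ^ (-3 / 2 : ℝ) = z.im⁻¹ * z.im ^ (-1 / 2 : ℝ) := by
    rw [← Real.rpow_neg_one, ← Real.rpow_add hz]; norm_num
  rw [e]
  calc _ ≤ z.im⁻¹ * ((NN f + Real.pi) / 2 * z.im ^ (-1 / 2 : ℝ)) := by
        gcongr; exact int_norm_le hf hz
    _ = _ := by ring

lemma CC_im_nonneg {p : ℝ → ℝ} (hp : ∀ u, 0 ≤ p u) (hf : L2 (fun u => (p u : ℂ))) {z : ℂ}
    (hz : z ∈ UH) : 0 ≤ (CC (fun u => (p u : ℂ)) z).im := by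
  have hz' : 0 < z.im := hz
  have := integral_im (𝕜 := ℂ) (CC_int hf hz'.ne')
  simp only [RCLike.im_to_complex] at this
  unfold CC
  rw [← this]
  refine integral_nonneg fun u => ?_
  simp only [Pi.zero_apply, div_im, ofReal_im, sub_re, ofReal_re, zero_mul, zero_div, sub_im,
    zero_sub, mul_neg, neg_div, neg_neg]
  exact div_nonneg (mul_nonneg (hp u) hz'.le) (Complex.normSq_nonneg _)

noncomputable def p1 (f : ℝ → ℂ) (u : ℝ) : ℝ := ‖f u‖ + (f u).re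
noncomputable def p2 (f : ℝ → ℂ) (u : ℝ) : ℝ := ‖f u‖ + (f u).im
noncomputable def p3 (f : ℝ → ℂ) (u : ℝ) : ℝ := ‖f u‖

lemma p1_nonneg (f : ℝ → ℂ) (u : ℝ) : 0 ≤ p1 f u := by
  have := abs_le.mp (Complex.abs_re_le_norm (f u)); unfold p1; linarith [this.1]
lemma p2_nonneg (f : ℝ → ℂ) (u : ℝ) : 0 ≤ p2 f u := by
  have := abs_le.mp (Complex.abs_im_le_norm (f u)); unfold p2; linarith [this.1]
lemma p3_nonneg (f : ℝ → ℂ) (u : ℝ) : 0 ≤ p3 f u := norm_nonneg _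

lemma L2_of_le {f : ℝ → ℂ} (hf : L2 f) {p : ℝ → ℝ} (hm : AEStronglyMeasurable p volume)
    (h0 : ∀ u, 0 ≤ p u) (hb : ∀ u, p u ≤ 2 * ‖f u‖) : L2 (fun u => (p u : ℂ)) := by
  refine ⟨Complex.continuous_ofReal.comp_aestronglyMeasurable hm, ?_⟩
  refine Integrable.mono' (hf.2.const_mul 4) ?_ (ae_of_all _ fun u => ?_)
  · exact (Complex.continuous_ofReal.comp_aestronglyMeasurable hm).norm.pow 2
  · rw [Real.norm_of_nonneg (by positivity), Complex.norm_real, Real.norm_of_nonneg (h0 u)]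
    nlinarith [hb u, h0 u]

lemma L2_p1 {f : ℝ → ℂ} (hf : L2 f) : L2 (fun u => (p1 f u : ℂ)) :=
  L2_of_le hf (hf.1.norm.add (Complex.continuous_re.comp_aestronglyMeasurable hf.1))
    (p1_nonneg f) (fun u => by
      have := abs_le.mp (Complex.abs_re_le_norm (f u)); unfold p1; linarith [this.2])
lemma L2_p2 {f : ℝ → ℂ} (hf : L2 f) : L2 (fun u => (p2 f u : ℂ)) :=
  L2_of_le hf (hf.1.norm.add (Complex.continuous_im.comp_aestronglyMeasurable hf.1))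
    (p2_nonneg f) (fun u => by
      have := abs_le.mp (Complex.abs_im_le_norm (f u)); unfold p2; linarith [this.2])
lemma L2_p3 {f : ℝ → ℂ} (hf : L2 f) : L2 (fun u => (p3 f u : ℂ)) :=
  L2_of_le hf hf.1.norm (p3_nonneg f) (fun u => by unfold p3; linarith [norm_nonneg (f u)])

lemma CC_split {f : ℝ → ℂ} (hf : L2 f) {z : ℂ} (hz : z ∈ UH) :
    ‖CC f z‖ ≤ 2 * (‖CC (fun u => (p1 f u : ℂ)) z‖ + ‖CC (fun u => (p2 f u : ℂ)) z‖ +
      ‖CC (fun u => (p3 f u : ℂ)) z‖) := by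
  have hz' : z.im ≠ 0 := ne_of_gt hz
  have e : CC f z = CC (fun u => (p1 f u : ℂ)) z + I * CC (fun u => (p2 f u : ℂ)) z
      - (1 + I) * CC (fun u => (p3 f u : ℂ)) z := by
    unfold CC
    have j1 := CC_int (L2_p1 hf) hz'
    have j2 := (CC_int (L2_p2 hf) hz').const_mul I
    have j3 := (CC_int (L2_p3 hf) hz').const_mul (1 + I)
    have j12 : Integrable (fun u : ℝ => (p1 f u : ℂ) / (u - z) + I * ((p2 f u : ℂ) / (u - z))) :=
      j1.add j2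
    rw [← integral_const_mul, ← integral_const_mul, ← integral_add j1 j2, ← integral_sub j12 j3]
    refine integral_congr_ae (ae_of_all _ fun u => ?_)
    simp only [p1, p2, p3, Pi.add_apply]
    have := Complex.re_add_im (f u)
    push_cast
    linear_combination (-((u : ℂ) - z)⁻¹) * this
  rw [e]
  have h1 : ‖(1 : ℂ) + I‖ ≤ 2 := by
    refine (norm_add_le _ _).trans ?_; simp; norm_num
  refine (norm_sub_le _ _).trans ?_
  have := norm_add_le (CC (fun u => (p1 f u : ℂ)) z) (I * CC (fun u => (p2 f u : ℂ)) z)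
  rw [norm_mul, Complex.norm_I, one_mul] at this
  rw [norm_mul]
  nlinarith [norm_nonneg (CC (fun u => (p1 f u : ℂ)) z), norm_nonneg (CC (fun u => (p2 f u : ℂ)) z),
    norm_nonneg (CC (fun u => (p3 f u : ℂ)) z)]

lemma L2_conj {f : ℝ → ℂ} (hf : L2 f) : L2 (fun u => (starRingEnd ℂ) (f u)) :=
  ⟨Complex.continuous_conj.comp_aestronglyMeasurable hf.1, by simpa using hf.2⟩

lemma CC_conj (f : ℝ → ℂ) (z : ℂ) :
    CC (fun u => (starRingEnd ℂ) (f u)) z = (starRingEnd ℂ) (CC f ((starRingEnd ℂ) z)) := by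
  unfold CC
  rw [← integral_conj]
  simp

lemma L2_intOn {f : ℝ → ℂ} (hf : L2 f) {s : Set ℝ} (hs : volume s ≠ ⊤) : IntegrableOn f s := by
  have h1 : IntegrableOn (fun u => ‖f u‖ ^ 2 + 1) s :=
    hf.2.integrableOn.add (integrableOn_const hs)
  refine Integrable.mono' h1 hf.1.restrict (ae_of_all _ fun u => ?_)
  nlinarith [sq_nonneg (‖f u‖ - 1)]

lemma L2_ii {f : ℝ → ℂ} (hf : L2 f) (a b : ℝ) : IntervalIntegrable f volume a b :=
  ⟨L2_intOn hf (by simp), L2_intOn hf (by simp)⟩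

lemma int_Ioc_le {f : ℝ → ℂ} (hf : L2 f) {a b : ℝ} (hab : a < b) :
    ∫ u in Ioc a b, ‖f u‖ ≤ (NN f + 1) / 2 * (b - a) ^ (1 / 2 : ℝ) := by
  have hd : 0 < b - a := by linarith
  set ρ : ℝ := (b - a) ^ (1 / 2 : ℝ) with hρ
  have hρ0 : 0 < ρ := Real.rpow_pos_of_pos hd _
  have e : ρ * ρ = b - a := by rw [hρ, ← Real.rpow_add hd]; norm_num
  have i1 : IntegrableOn (fun u => ρ / 2 * ‖f u‖ ^ 2) (Ioc a b) :=
    (hf.2.const_mul _).integrableOn
  have i2 : IntegrableOn (fun _ : ℝ => ρ⁻¹ / 2) (Ioc a b) := integrableOn_const (by simp)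
  have h1 : ∫ u in Ioc a b, ‖f u‖ ≤ ∫ u in Ioc a b, (ρ / 2 * ‖f u‖ ^ 2 + ρ⁻¹ / 2) := by
    refine integral_mono (L2_intOn hf (by simp)).norm (i1.add i2) fun u => ?_
    have : ρ / 2 * ‖f u‖ ^ 2 + ρ⁻¹ / 2 - ‖f u‖ = (ρ * ‖f u‖ - 1) ^ 2 / (2 * ρ) := by
      field_simp; ring
    have h2 : 0 ≤ (ρ * ‖f u‖ - 1) ^ 2 / (2 * ρ) := by positivity
    beta_reduce
    linarith
  refine h1.trans ?_
  rw [integral_add i1 i2, integral_const_mul, setIntegral_const, Real.volume_real_Ioc_of_le hab.le,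
    smul_eq_mul, ← e]
  have h3 : ∫ u in Ioc a b, ‖f u‖ ^ 2 ≤ NN f :=
    setIntegral_le_integral hf.2 (ae_of_all _ fun u => by positivity)
  have e2 : ρ * ρ * (ρ⁻¹ / 2) = ρ / 2 := by field_simp
  rw [e2]
  nlinarith

end Pool.Agent.H.MP_0e9c6a_an
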