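import Pool.Agent.H.MP_0e9c6a_an.Steps

set_option autoImplicit false
set_option maxHeartbeats 400000
open MeasureTheory Complex Set Filter Topology

namespace Pool.Agent.H.MP_0e9c6a_an

lemma WW_an (ε : ℝ) {f : ℝ → ℂ} (hf : L2 f) : AnalyticOnNhd ℂ (WW ε f) UH := by
  have h := (CC_diff hf).analyticOnNhd isOpen_UH
  exact h.deriv.add (analyticOnNhd_const.mul h)

lemma WW_bound {ε : ℝ} (hε : 0 < ε) {f : ℝ → ℂ} (hf : L2 f) {η : ℝ} (hη : 0 < η) (hη1 : η ≤ 1)
    {z : ℂ} (hz : η ≤ z.im) :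
    ‖WW ε f z‖ ≤ (1 + ε) * ((NN f + Real.pi) / 2) * η ^ (-3 / 2 : ℝ) := by
  have hz0 : 0 < z.im := by linarith
  have hc : 0 ≤ (NN f + Real.pi) / 2 := by linarith [NN_nonneg f, Real.pi_pos]
  have k1 := deriv_bound hf hz0
  have k2 := CC_bound hf hz0
  have k3 : z.im ^ (-3 / 2 : ℝ) ≤ η ^ (-3 / 2 : ℝ) :=
    Real.rpow_le_rpow_of_nonpos hη hz (by norm_num)
  have k4 : z.im ^ (-1 / 2 : ℝ) ≤ η ^ (-3 / 2 : ℝ) :=
    (Real.rpow_le_rpow_of_nonpos hη hz (by norm_num)).trans
      (Real.rpow_le_rpow_of_exponent_ge hη hη1 (by norm_num))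
  unfold WW
  refine (norm_add_le _ _).trans ?_
  rw [norm_mul, Complex.norm_real, Real.norm_of_nonneg hε.le]
  have k5 := k1.trans (mul_le_mul_of_nonneg_left k3 hc)
  have k6 := mul_le_mul_of_nonneg_left (k2.trans (mul_le_mul_of_nonneg_left k4 hc)) hε.le
  linarith

lemma convex_UH : Convex ℝ UH := convex_halfSpace_im_gt 0

lemma step5 {ε : ℝ} (hε : 0 < ε) {f : ℝ → ℂ} (hf : L2 f) {S2 : Set ℝ} (hm : MeasurableSet S2)
    (hp : 0 < volume S2) {C ρ : ℝ} (hC0 : 0 ≤ C) (hρ : 0 < ρ)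
    (hC : ∀ x0 ∈ S2, ∀ y : ℝ, 0 < y → y ≤ ρ → ‖WW ε f (x0 + y * I)‖ ≤ C * y ^ (21 / 100 : ℝ)) :
    ∀ z ∈ UH, WW ε f z = 0 := by
  obtain ⟨r3, hr3, -, S3, -, -, hp3, hD⟩ := dens_sub hm hp
  obtain ⟨x0, hx0⟩ := nonempty_of_measure_ne_zero hp3.ne'
  obtain ⟨B, hB0, hB⟩ : ∃ B : ℝ, 0 ≤ B ∧ ∀ η : ℝ, 0 < η → η ≤ 1 → ∀ z : ℂ, η ≤ z.im →
      ‖WW ε f z‖ ≤ B * η ^ (-3 / 2 : ℝ) :=
    ⟨_, by have := NN_nonneg f; have := Real.pi_pos; positivity,
      fun η h1 h2 z hz => WW_bound hε hf h1 h2 hz⟩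
  have hA := WW_an ε hf
  have key : ∀ x y : ℝ, 0 < y → 21 * y ≤ r3 → |x - x0| ≤ y → WW ε f (x + y * I) = 0 := by
    intro x y hy hy1 hx
    have hz : ((x : ℂ) + y * I) ∈ UH := by simp [UH, hy]
    have t1 : Tendsto (fun η : ℝ => ‖WW ε f (x + y * I + η * I)‖) (𝓝[>] 0)
        (𝓝 ‖WW ε f (x + y * I)‖) := by
      have c2 : Tendsto (fun δ : ℝ => (x : ℂ) + y * I + δ * I) (𝓝 0) (𝓝 (x + y * I)) := by
        have : Continuous (fun δ : ℝ => (x : ℂ) + y * I + δ * I) := by fun_prop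
        simpa using this.tendsto 0
      have c3 := (((hA _ hz).continuousAt.tendsto.comp c2).norm).mono_left
        (nhdsWithin_le_nhds (s := Ioi (0 : ℝ)))
      simpa only [Function.comp_def] using c3
    have t2 : Tendsto (fun η : ℝ => ((2 * C + 1) ^ (9 / 10 : ℝ) * (B + 2 * C + 1) ^ (1 / 10 : ℝ)) *
        η ^ (39 / 1000 : ℝ)) (𝓝[>] 0) (𝓝 0) := by
      have c1 : ContinuousAt (fun η : ℝ => η ^ (39 / 1000 : ℝ)) 0 :=
        Real.continuousAt_rpow_const _ _ (Or.inr (by norm_num))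
      have c2 := (c1.tendsto.mono_left (nhdsWithin_le_nhds (s := Ioi (0 : ℝ)))).const_mul
        ((2 * C + 1) ^ (9 / 10 : ℝ) * (B + 2 * C + 1) ^ (1 / 10 : ℝ))
      rwa [Real.zero_rpow (by norm_num), mul_zero] at c2
    have t3 : ‖WW ε f (x + y * I)‖ ≤ 0 := by
      refine le_of_tendsto_of_tendsto t1 t2 ?_
      filter_upwards [Ioo_mem_nhdsGT (show 0 < min 1 (ρ / 2) by positivity)] with η hη
      have hη0 := hη.1
      have hη1 : η ≤ 1 := (hη.2.trans_le (min_le_left _ _)).le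
      have hη2 : η ≤ ρ / 2 := (hη.2.trans_le (min_le_right _ _)).le
      have a1 : η ^ (21 / 100 : ℝ) ≤ 1 := Real.rpow_le_one hη0.le hη1 (by norm_num)
      have a2 : 1 ≤ η ^ (-3 / 2 : ℝ) :=
        Real.one_le_rpow_of_pos_of_le_one_of_nonpos hη0 hη1 (by norm_num)
      have a3 : 0 < η ^ (21 / 100 : ℝ) := by positivity
      have hsh : ∀ w ∈ UH, w + η * I ∈ UH := by
        intro w hw
        have : 0 < w.im := hw
        simp only [UH, mem_setOf_eq, add_im, mul_im, ofReal_re, I_im, mul_one, ofReal_im, I_re,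
          mul_zero, add_zero]
        linarith
      have h := two_const (Ψ := fun w => WW ε f (w + η * I))
        (hA.differentiableOn.comp (by fun_prop) hsh)
        (s := (2 * C + 1) * η ^ (21 / 100 : ℝ)) (Λ := (B + 2 * C + 1) * η ^ (-3 / 2 : ℝ))
        (by positivity) (by nlinarith)
        (fun w hw => by
          have h0 : 0 < w.im := hw
          refine (hB η hη0 hη1 _ (by simp; linarith)).trans ?_
          gcongr; linarith)
        hy hx (Dens.at hD hx0 hy hy1)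
        (fun t ht => by
          filter_upwards [Ioo_mem_nhdsGT hη0] with δ hδ
          have e : (t : ℂ) + δ * I + η * I = t + (δ + η : ℝ) * I := by push_cast; ring
          rw [e]
          refine (hC t ht (δ + η) (by linarith [hδ.1]) (by linarith [hδ.2])).trans ?_
          have b1 : (δ + η) ^ (21 / 100 : ℝ) ≤ (2 * η) ^ (21 / 100 : ℝ) :=
            Real.rpow_le_rpow (by linarith [hδ.1]) (by linarith [hδ.2]) (by norm_num)
          rw [Real.mul_rpow (by norm_num) hη0.le] at b1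
          have b2 : (2 : ℝ) ^ (21 / 100 : ℝ) ≤ 2 := by
            have := Real.rpow_le_rpow_of_exponent_le (show (1 : ℝ) ≤ 2 by norm_num)
              (show (21 / 100 : ℝ) ≤ 1 by norm_num)
            rwa [Real.rpow_one] at this
          have b3 : (δ + η) ^ (21 / 100 : ℝ) ≤ 2 * η ^ (21 / 100 : ℝ) := b1.trans (by gcongr)
          nlinarith [mul_le_mul_of_nonneg_left b3 hC0])
      refine h.trans (le_of_eq ?_)
      rw [Real.mul_rpow (by positivity) (by positivity),
        Real.mul_rpow (x := B + 2 * C + 1) (by positivity) (by positivity),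
        ← Real.rpow_mul hη0.le, ← Real.rpow_mul hη0.le,
        show (39 / 1000 : ℝ) = 21 / 100 * (9 / 10) + -3 / 2 * (1 / 10) by norm_num,
        Real.rpow_add hη0]
      ring
    exact norm_le_zero_iff.mp t3
  have hz1 : ((x0 : ℂ) + (r3 / 42 : ℝ) * I) ∈ UH := by
    simp only [UH, mem_setOf_eq, add_im, mul_im, ofReal_re, I_im, mul_one, ofReal_im, I_re,
      mul_zero, add_zero, zero_add]
    positivity
  refine hA.eqOn_zero_of_preconnected_of_eventuallyEq_zero convex_UH.isPreconnected hz1 ?_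
  filter_upwards [Metric.ball_mem_nhds _ (show 0 < r3 / 84 by positivity)] with w hw
  rw [Metric.mem_ball, dist_eq_norm] at hw
  have a1 := (Complex.abs_re_le_norm _).trans hw.le
  have a2 := abs_le.mp ((Complex.abs_im_le_norm _).trans hw.le)
  simp only [sub_re, add_re, ofReal_re, mul_re, I_re, mul_zero, ofReal_im, I_im, mul_one,
    sub_self, add_zero, sub_im, add_im, mul_im, zero_add] at a1 a2
  have := key w.re w.im (by linarith [a2.1]) (by linarith [a2.2]) (by linarith [a2.1])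
  rwa [Complex.re_add_im] at this

lemma step6 {ε : ℝ} (hε : 0 < ε) {f : ℝ → ℂ} (hf : L2 f) (h : ∀ z ∈ UH, WW ε f z = 0) :
    ∀ z ∈ UH, CC f z = 0 := by
  intro z hz
  have hd : ∀ w ∈ UH, HasDerivAt (fun w => CC f w * Complex.exp (ε * w)) 0 w := by
    intro w hw
    have d1 := (CC_hasDeriv hf hw).differentiableAt.hasDerivAt
    have d2 : HasDerivAt (fun w : ℂ => Complex.exp (ε * w)) (Complex.exp (ε * w) * ε) w := by
      simpa using ((hasDerivAt_id w).const_mul (ε : ℂ)).cexp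
    have d3 : HasDerivAt (fun w => CC f w * Complex.exp (ε * w))
        (deriv (CC f) w * Complex.exp (ε * w) + CC f w * (Complex.exp (ε * w) * ε)) w := d1.mul d2
    refine d3.congr_deriv ?_
    have := h w hw
    unfold WW at this
    linear_combination Complex.exp (ε * w) * this
  have hc : ∀ R : ℝ, CC f z * Complex.exp (ε * z) =
      CC f ((-R : ℝ) + I) * Complex.exp (ε * ((-R : ℝ) + I)) := fun R =>
    isOpen_UH.is_const_of_deriv_eq_zero (f := fun w => CC f w * Complex.exp (ε * w))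
      convex_UH.isPreconnected
      (fun w hw => (hd w hw).differentiableAt.differentiableWithinAt)
      (fun w hw => (hd w hw).deriv) hz (by simp [UH])
  have hb : ∀ R : ℝ, ‖CC f z * Complex.exp (ε * z)‖ ≤
      (NN f + Real.pi) / 2 * Real.exp (-(ε * R)) := by
    intro R
    rw [hc R, norm_mul, Complex.norm_exp]
    have := CC_bound hf (z := (-R : ℝ) + I) (by simp)
    have e1 : (((-R : ℝ) : ℂ) + I).im = 1 := by simp
    have e2 : ((ε : ℂ) * ((-R : ℝ) + I)).re = -(ε * R) := by simp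
    rw [e1, Real.one_rpow, mul_one] at this
    rw [e2]; gcongr
  have t1 : Tendsto (fun R : ℝ => (NN f + Real.pi) / 2 * Real.exp (-(ε * R))) atTop (𝓝 0) := by
    have := (Real.tendsto_exp_neg_atTop_nhds_zero.comp
      (tendsto_id.const_mul_atTop hε)).const_mul ((NN f + Real.pi) / 2)
    simpa using this
  have := norm_le_zero_iff.mp (ge_of_tendsto' t1 hb)
  exact (mul_eq_zero.mp this).resolve_right (Complex.exp_ne_zero _)

lemma CC_zero {ε : ℝ} (hε : 0 < ε) {f a : ℝ → ℂ} {H : ℝ} (hf : L2 f) (hg : Good ε f a H)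
    {E : Set ℝ} (hE : MeasurableSet E) (hp : 0 < volume E) (hBV : BV f a E)
    (hBV' : BV (fun u => (starRingEnd ℂ) (f u)) (fun t => (starRingEnd ℂ) (a t)) E) :
    ∀ z ∈ UH, CC f z = 0 := by
  obtain ⟨r1, hr1, hr1', S1, s1, m1, q1, D1⟩ := dens_sub hE hp
  obtain ⟨r2, hr2, -, S2, s2, m2, q2, D2⟩ := dens_sub m1 q1
  obtain ⟨C, hC0, hC⟩ := step4 hε hf hg hBV hBV' hr1' s1 s2 D1 D2
  refine step6 hε hf (step5 hε hf m2 q2 hC0 (ρ := min (r1 / 882) (r2 / 42)) (by positivity)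
    fun x0 hx0 y hy hyρ => hC x0 hx0 y hy ?_ ?_)
  · have := hyρ.trans (min_le_left _ _); linarith
  · have := hyρ.trans (min_le_right _ _); linarith

theorem main (c : ℂ) (ε : ℝ) (hε : 0 < ε) (E : Set ℝ) (hE : MeasurableSet E) (hp : 0 < volume E)
    (f : ℝ → ℂ) (hf2 : MemLp f 2 volume) (h0 : ∀ᵐ t ∂(volume.restrict E), f t = 0)
    (h1 : ∀ᵐ t ∂(volume.restrict E),
      Filter.Tendsto
        (fun δ : ℝ =>
          (∫ τ in {τ : ℝ | δ < |t - τ|}, f τ / ((t - τ : ℝ) : ℂ)) +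
            c * ∫ τ in Set.Iic t, ((Real.exp (ε * (τ - t)) : ℝ) : ℂ) * f τ)
        (nhdsWithin 0 (Set.Ioi 0)) (nhds 0)) : f =ᵐ[volume] 0 := by
  have hf : L2 f := ⟨hf2.1, (memLp_two_iff_integrable_sq_norm hf2.1).mp hf2⟩
  have hf' := L2_conj hf
  obtain ⟨H, hg⟩ := exists_good hε hf c
  rw [ae_restrict_iff' hE] at h0 h1
  have hBV : BV f (fun t => c * gg ε f t) E := by
    filter_upwards [h0, h1, ae_Leb hf] with t a0 a1 a2 ht
    exact bdry hf (a2 (a0 ht)) (a1 ht)
  have hBV' : BV (fun u => (starRingEnd ℂ) (f u)) (fun t => (starRingEnd ℂ) (c * gg ε f t)) E := by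
    filter_upwards [h0, h1, ae_Leb hf'] with t a0 a1 a2 ht
    refine bdry hf' (a2 (by simp [a0 ht])) ?_
    have := (Complex.continuous_conj.tendsto _).comp (a1 ht)
    rw [map_zero] at this
    refine this.congr fun δ => ?_
    simp only [Function.comp_apply, map_add, gg]
    rw [← integral_conj]
    simp
  have z1 := CC_zero hε hf hg hE hp hBV hBV'
  have z2 := CC_zero hε hf' hg.conj hE hp hBV' (by simpa using hBV)
  have key : ∀ x t : ℝ, x < t → ∫ u in x..t, f u = 0 := by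
    intro x t hxt
    have k1 := pois_lim hf hxt
    have k2 : Tendsto (fun δ : ℝ => ∫ s in x..t, (CC f (s + δ * I) -
        (starRingEnd ℂ) (CC (fun u => (starRingEnd ℂ) (f u)) (s + δ * I)))) (𝓝[>] 0) (𝓝 0) := by
      refine tendsto_const_nhds.congr' ?_
      filter_upwards [self_mem_nhdsWithin] with δ hδ
      have hm : ∀ s : ℝ, ((s : ℂ) + δ * I) ∈ UH := fun s => by
        simpa [UH] using hδ
      simp [z1 _ (hm _), z2 _ (hm _)]
    have := tendsto_nhds_unique k1 k2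
    have hpi : (Real.pi : ℂ) ≠ 0 := by exact_mod_cast Real.pi_ne_zero
    exact (mul_eq_zero.mp this).resolve_left
      (mul_ne_zero (mul_ne_zero two_ne_zero hpi) I_ne_zero)
  have key2 : ∀ t : ℝ, ∫ u in (0 : ℝ)..t, f u = 0 := by
    intro t
    rcases lt_trichotomy 0 t with h | h | h
    · exact key 0 t h
    · subst h; simp
    · rw [intervalIntegral.integral_symm, key t 0 h, neg_zero]
  filter_upwards [_root_.LocallyIntegrable.ae_hasDerivAt_integral (L2_loc hf)] with x hx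
  have d1 := hx 0
  simp only [key2] at d1
  exact d1.unique (hasDerivAt_const x (0 : ℂ))

end Pool.Agent.H.MP_0e9c6a_an
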