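import Pool.Agent.H.MP_0e9c6a_an.Prim

set_option autoImplicit false
set_option maxHeartbeats 400000
open MeasureTheory Complex Set Filter Topology

namespace Pool.Agent.H.MP_0e9c6a_an

noncomputable def gg (ε : ℝ) (f : ℝ → ℂ) (t : ℝ) : ℂ :=
  ∫ τ in Set.Iic t, ((Real.exp (ε * (τ - t)) : ℝ) : ℂ) * f τ

lemma gg_dom {ε : ℝ} (f : ℝ → ℂ) (t τ : ℝ) :
    ‖((Real.exp (ε * (τ - t)) : ℝ) : ℂ) * f τ‖ ≤
      Real.exp (-(2 * ε * t)) * Real.exp (2 * ε * τ) + ‖f τ‖ ^ 2 := by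
  rw [norm_mul, Complex.norm_real, Real.norm_of_nonneg (Real.exp_pos _).le, ← Real.exp_add]
  have : Real.exp (-(2 * ε * t) + 2 * ε * τ) = Real.exp (ε * (τ - t)) ^ 2 := by
    rw [← Real.exp_nat_mul]; congr 1; push_cast; ring
  rw [this]
  nlinarith [sq_nonneg (Real.exp (ε * (τ - t)) - ‖f τ‖), Real.exp_pos (ε * (τ - t)),
    norm_nonneg (f τ)]

lemma gg_int {ε : ℝ} (hε : 0 < ε) {f : ℝ → ℂ} (hf : L2 f) (t s : ℝ) :
    IntegrableOn (fun τ => ((Real.exp (ε * (τ - t)) : ℝ) : ℂ) * f τ) (Iic s) := by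
  have i1 : IntegrableOn (fun τ => Real.exp (-(2 * ε * t)) * Real.exp (2 * ε * τ) + ‖f τ‖ ^ 2)
      (Iic s) :=
    ((integrableOn_exp_mul_Iic (show 0 < 2 * ε by linarith) s).const_mul _).add hf.2.integrableOn
  refine Integrable.mono' i1 ?_ (ae_of_all _ fun τ => gg_dom f t τ)
  have : Continuous (fun τ => ((Real.exp (ε * (τ - t)) : ℝ) : ℂ)) := by fun_prop
  exact this.aestronglyMeasurable.mul hf.1.restrict

lemma gg_bound {ε : ℝ} (hε : 0 < ε) {f : ℝ → ℂ} (hf : L2 f) (t : ℝ) :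
    ‖gg ε f t‖ ≤ 1 / (2 * ε) + NN f := by
  have j1 := (integrableOn_exp_mul_Iic (show 0 < 2 * ε by linarith) t).const_mul
    (Real.exp (-(2 * ε * t)))
  have j2 : IntegrableOn (fun τ => ‖f τ‖ ^ 2) (Iic t) := hf.2.integrableOn
  refine (norm_integral_le_of_norm_le (j1.add j2) (ae_of_all _ fun τ => gg_dom f t τ)).trans ?_
  simp only [Pi.add_apply]
  rw [integral_add j1 j2, integral_const_mul, integral_exp_mul_Iic (by linarith), mul_div_assoc',
    ← Real.exp_add, neg_add_cancel, Real.exp_zero]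
  have h3 : ∫ u in Iic t, ‖f u‖ ^ 2 ≤ NN f :=
    setIntegral_le_integral hf.2 (ae_of_all _ fun u => by positivity)
  linarith

lemma gg_step {ε : ℝ} (hε : 0 < ε) {f : ℝ → ℂ} (hf : L2 f) {x t : ℝ} (hxt : x < t) :
    ‖gg ε f t - (Real.exp (-(ε * (t - x))) : ℝ) * gg ε f x‖ ≤
      ‖∫ u in x..t, f u‖ + ε * ((NN f + 1) / 2) * (t - x) ^ (3 / 2 : ℝ) := by
  have hd : 0 < t - x := by linarith
  have i0 := gg_int hε hf t t
  have e1 : gg ε f t = (Real.exp (-(ε * (t - x))) : ℝ) * gg ε f x +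
      ∫ τ in Ioc x t, ((Real.exp (ε * (τ - t)) : ℝ) : ℂ) * f τ := by
    unfold gg
    rw [← Iic_union_Ioc_eq_Iic hxt.le, setIntegral_union (Iic_disjoint_Ioc le_rfl)
      measurableSet_Ioc (gg_int hε hf t x) (i0.mono_set Ioc_subset_Iic_self), ← integral_const_mul]
    congr 2
    ext τ
    rw [← mul_assoc, ← Complex.ofReal_mul, ← Real.exp_add]
    congr 3; ring
  rw [e1, add_sub_cancel_left, intervalIntegral.integral_of_le hxt.le]
  have i1 : IntegrableOn f (Ioc x t) := L2_intOn hf (by simp)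
  have h2 : ‖(∫ τ in Ioc x t, ((Real.exp (ε * (τ - t)) : ℝ) : ℂ) * f τ) - ∫ τ in Ioc x t, f τ‖ ≤
      ∫ τ in Ioc x t, ε * (t - x) * ‖f τ‖ := by
    rw [← integral_sub (i0.mono_set Ioc_subset_Iic_self) i1]
    refine norm_integral_le_of_norm_le (i1.norm.const_mul _) ?_
    filter_upwards [ae_restrict_mem measurableSet_Ioc] with τ hτ
    have : ((Real.exp (ε * (τ - t)) : ℝ) : ℂ) * f τ - f τ =
        ((Real.exp (ε * (τ - t)) - 1 : ℝ) : ℂ) * f τ := by push_cast; ring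
    rw [this, norm_mul, Complex.norm_real, Real.norm_eq_abs]
    gcongr
    have a1 := Real.add_one_le_exp (ε * (τ - t))
    have a2 : Real.exp (ε * (τ - t)) ≤ 1 := Real.exp_le_one_iff.mpr (by nlinarith [hτ.2])
    rw [abs_of_nonpos (by linarith)]
    nlinarith [hτ.1]
  rw [integral_const_mul] at h2
  have h3 := int_Ioc_le hf hxt
  have e2 : (t - x) ^ (3 / 2 : ℝ) = (t - x) * (t - x) ^ (1 / 2 : ℝ) := by
    rw [show (3 / 2 : ℝ) = 1 + 1 / 2 by norm_num, Real.rpow_add hd, Real.rpow_one]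
  have h4 : ε * (t - x) * ∫ τ in Ioc x t, ‖f τ‖ ≤
      ε * (t - x) * ((NN f + 1) / 2 * (t - x) ^ (1 / 2 : ℝ)) := by gcongr
  have h5 := norm_add_le ((∫ τ in Ioc x t, ((Real.exp (ε * (τ - t)) : ℝ) : ℂ) * f τ) -
    ∫ τ in Ioc x t, f τ) (∫ τ in Ioc x t, f τ)
  rw [sub_add_cancel] at h5
  rw [e2]
  nlinarith

/-- The properties of the boundary function used in the proof. -/
structure Good (ε : ℝ) (f a : ℝ → ℂ) (H : ℝ) : Prop where
  h0 : 0 ≤ H
  g1 : ∀ t, ‖a t‖ ≤ H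
  g2 : ∀ x t, |t - x| ≤ 1 → ‖a t - a x‖ ≤ H * |t - x| ^ (1 / 2 : ℝ)
  g3 : ∀ x t, |t - x| ≤ 1 → ‖a t - a x * (1 - ε * (t - x))‖ ≤
    H * (‖∫ u in x..t, f u‖ + |t - x| ^ (3 / 2 : ℝ))

lemma sq_le_rpow {h : ℝ} (h0 : 0 < h) (h1 : h ≤ 1) : h ^ 2 ≤ h ^ (3 / 2 : ℝ) := by
  have := Real.rpow_le_rpow_of_exponent_ge h0 h1 (show (3 / 2 : ℝ) ≤ 2 by norm_num)
  rwa [Real.rpow_two] at this

lemma gg_g3 {ε : ℝ} (hε : 0 < ε) {f : ℝ → ℂ} (hf : L2 f) : ∃ H : ℝ, 0 ≤ H ∧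
    ∀ x t, |t - x| ≤ 1 → ‖gg ε f t - gg ε f x * (1 - ε * (t - x))‖ ≤
      H * (‖∫ u in x..t, f u‖ + |t - x| ^ (3 / 2 : ℝ)) := by
  have hN := NN_nonneg f
  obtain ⟨G, hG0, hG⟩ : ∃ G : ℝ, 0 ≤ G ∧ ∀ t, ‖gg ε f t‖ ≤ G :=
    ⟨_, by positivity, gg_bound hε hf⟩
  obtain ⟨B, hB0, hB⟩ : ∃ B : ℝ, 0 ≤ B ∧ ∀ x t, x < t →
      ‖gg ε f t - (Real.exp (-(ε * (t - x))) : ℝ) * gg ε f x‖ ≤
      ‖∫ u in x..t, f u‖ + B * (t - x) ^ (3 / 2 : ℝ) :=
    ⟨_, by positivity, fun x t h => gg_step hε hf h⟩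
  refine ⟨(1 + ε) * (1 + G * ε ^ 2 + B), by positivity, fun x t h1 => ?_⟩
  rcases lt_trichotomy x t with h | h | h
  · have hd : 0 < t - x := by linarith
    rw [abs_of_pos hd] at h1 ⊢
    have k1 := hB x t h
    have k2 := sq_le_rpow hd h1
    have k3 : |Real.exp (-(ε * (t - x))) - (1 - ε * (t - x))| ≤ (ε * (t - x)) ^ 2 := by
      have hp : 0 < ε * (t - x) := by positivity
      generalize ε * (t - x) = v at *
      have a1 := Real.add_one_le_exp (-v)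
      have a2 := Real.add_one_le_exp v
      have a3 : Real.exp (-v) * Real.exp v = 1 := by rw [← Real.exp_add]; simp
      have a4 := Real.exp_pos (-v)
      rw [abs_of_nonneg (by linarith)]
      have a5 : Real.exp (-v) * (v + 1) ≤ 1 := by nlinarith
      nlinarith
    have e : gg ε f t - gg ε f x * (1 - ε * (t - x)) =
        (gg ε f t - (Real.exp (-(ε * (t - x))) : ℝ) * gg ε f x) +
          ((Real.exp (-(ε * (t - x))) - (1 - ε * (t - x)) : ℝ) : ℂ) * gg ε f x := by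
      push_cast; ring
    rw [e]
    refine (norm_add_le _ _).trans ?_
    rw [norm_mul, Complex.norm_real, Real.norm_eq_abs]
    have k4 : |Real.exp (-(ε * (t - x))) - (1 - ε * (t - x))| * ‖gg ε f x‖ ≤
        (ε * (t - x)) ^ 2 * G := by gcongr; exact hG x
    have k5 : (ε * (t - x)) ^ 2 * G ≤ G * ε ^ 2 * (t - x) ^ (3 / 2 : ℝ) := by
      rw [mul_pow]
      calc ε ^ 2 * (t - x) ^ 2 * G ≤ ε ^ 2 * (t - x) ^ (3 / 2 : ℝ) * G := by gcongr
        _ = _ := by ring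
    have p1 : 0 ≤ (t - x) ^ (3 / 2 : ℝ) := by positivity
    have p2 := norm_nonneg (∫ u in x..t, f u)
    generalize (t - x) ^ (3 / 2 : ℝ) = w at *
    generalize ‖∫ u in x..t, f u‖ = J at *
    have p3 : 0 ≤ G * ε ^ 2 := by positivity
    generalize G * ε ^ 2 = G2 at *
    have : J + B * w + G2 * w ≤ (1 + G2 + B) * (J + w) := by nlinarith
    have p4 : 0 ≤ (1 + G2 + B) * (J + w) := by positivity
    nlinarith
  · subst h; simp
  · have hd : 0 < x - t := by linarith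
    rw [abs_sub_comm, abs_of_pos hd] at h1 ⊢
    have k1 := hB t x h
    rw [intervalIntegral.integral_symm, norm_neg] at k1
    have k2 := sq_le_rpow hd h1
    have k3 : |1 - Real.exp (-(ε * (x - t))) * (1 + ε * (x - t))| ≤ (ε * (x - t)) ^ 2 := by
      have hp : 0 < ε * (x - t) := by positivity
      generalize ε * (x - t) = v at *
      have a1 := Real.add_one_le_exp (-v)
      have a2 := Real.add_one_le_exp v
      have a3 : Real.exp (-v) * Real.exp v = 1 := by rw [← Real.exp_add]; simp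
      have a4 := Real.exp_pos (-v)
      have a5 : Real.exp (-v) * (v + 1) ≤ 1 := by nlinarith
      rw [abs_of_nonneg (by linarith)]
      nlinarith
    have e : gg ε f t - gg ε f x * (1 - ε * (t - x)) =
        ((1 - Real.exp (-(ε * (x - t))) * (1 + ε * (x - t)) : ℝ) : ℂ) * gg ε f t -
        ((1 + ε * (x - t) : ℝ) : ℂ) *
          (gg ε f x - (Real.exp (-(ε * (x - t))) : ℝ) * gg ε f t) := by
      push_cast; ring
    rw [e]
    refine (norm_sub_le _ _).trans ?_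
    rw [norm_mul, norm_mul, Complex.norm_real, Complex.norm_real, Real.norm_eq_abs,
      Real.norm_of_nonneg (by positivity)]
    have k4 : |1 - Real.exp (-(ε * (x - t))) * (1 + ε * (x - t))| * ‖gg ε f t‖ ≤
        (ε * (x - t)) ^ 2 * G := by gcongr; exact hG t
    have k5 : (ε * (x - t)) ^ 2 * G ≤ G * ε ^ 2 * (x - t) ^ (3 / 2 : ℝ) := by
      rw [mul_pow]
      calc ε ^ 2 * (x - t) ^ 2 * G ≤ ε ^ 2 * (x - t) ^ (3 / 2 : ℝ) * G := by gcongr
        _ = _ := by ring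
    have p1 : 0 ≤ (x - t) ^ (3 / 2 : ℝ) := by positivity
    have p2 := norm_nonneg (∫ u in x..t, f u)
    have k6 : (1 + ε * (x - t)) * ‖gg ε f x - (Real.exp (-(ε * (x - t))) : ℝ) * gg ε f t‖ ≤
        (1 + ε) * (‖∫ u in x..t, f u‖ + B * (x - t) ^ (3 / 2 : ℝ)) := by
      gcongr; nlinarith
    generalize (x - t) ^ (3 / 2 : ℝ) = w at *
    generalize ‖∫ u in x..t, f u‖ = J at *
    have p3 : 0 ≤ G * ε ^ 2 := by positivity
    generalize G * ε ^ 2 = G2 at *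
    have : J + B * w + G2 * w ≤ (1 + G2 + B) * (J + w) := by nlinarith
    have p4 : G2 * w ≤ (1 + ε) * (G2 * w) := by nlinarith [mul_nonneg p3 p1]
    have p5 : (1 + ε) * (J + B * w + G2 * w) ≤ (1 + ε) * ((1 + G2 + B) * (J + w)) := by gcongr
    nlinarith

lemma ii_le {f : ℝ → ℂ} (hf : L2 f) (x t : ℝ) :
    ‖∫ u in x..t, f u‖ ≤ (NN f + 1) / 2 * |t - x| ^ (1 / 2 : ℝ) := by
  have key : ∀ x t : ℝ, x < t → ‖∫ u in x..t, f u‖ ≤ (NN f + 1) / 2 * |t - x| ^ (1 / 2 : ℝ) := by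
    intro x t h
    rw [intervalIntegral.integral_of_le h.le, abs_of_pos (by linarith)]
    exact (norm_integral_le_integral_norm _).trans (int_Ioc_le hf h)
  rcases lt_trichotomy x t with h | h | h
  · exact key x t h
  · subst h; simp
  · rw [intervalIntegral.integral_symm, norm_neg, abs_sub_comm]; exact key t x h

lemma exists_good {ε : ℝ} (hε : 0 < ε) {f : ℝ → ℂ} (hf : L2 f) (c : ℂ) :
    ∃ H, Good ε f (fun t => c * gg ε f t) H := by
  have hN := NN_nonneg f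
  obtain ⟨G, hG0, hG⟩ : ∃ G : ℝ, 0 ≤ G ∧ ∀ t, ‖gg ε f t‖ ≤ G :=
    ⟨_, by positivity, gg_bound hε hf⟩
  obtain ⟨H, hH0, hH⟩ := gg_g3 hε hf
  obtain ⟨B, hB0, hB⟩ : ∃ B : ℝ, 0 ≤ B ∧ ∀ x t,
      ‖∫ u in x..t, f u‖ ≤ B * |t - x| ^ (1 / 2 : ℝ) := ⟨_, by positivity, ii_le hf⟩
  have hc := norm_nonneg c
  refine ⟨‖c‖ * (G + H + (H * (B + 1) + G * ε)), by positivity, fun t => ?_, fun x t h => ?_,
    fun x t h => ?_⟩
  · rw [norm_mul]; gcongr
    have : 0 ≤ H + (H * (B + 1) + G * ε) := by positivity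
    linarith [hG t]
  · rw [← mul_sub, norm_mul, mul_assoc]; gcongr
    have k1 := hH x t h
    have k2 := hB x t
    rcases (abs_nonneg (t - x)).eq_or_lt with h0 | h0
    · have : t = x := by have := abs_eq_zero.mp h0.symm; linarith
      subst this; simp
    have k3 : |t - x| ^ (3 / 2 : ℝ) ≤ |t - x| ^ (1 / 2 : ℝ) :=
      Real.rpow_le_rpow_of_exponent_ge h0 h (by norm_num)
    have k4 : |t - x| ≤ |t - x| ^ (1 / 2 : ℝ) := by
      have := Real.rpow_le_rpow_of_exponent_ge h0 h (show (1 / 2 : ℝ) ≤ 1 by norm_num)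
      rwa [Real.rpow_one] at this
    have e : gg ε f t - gg ε f x = (gg ε f t - gg ε f x * (1 - ε * (t - x))) -
        gg ε f x * ((ε * (t - x) : ℝ) : ℂ) := by push_cast; ring
    rw [e]
    refine (norm_sub_le _ _).trans ?_
    rw [norm_mul, Complex.norm_real, Real.norm_eq_abs, abs_mul, abs_of_pos hε]
    have k5 : ‖gg ε f x‖ * (ε * |t - x|) ≤ G * (ε * |t - x| ^ (1 / 2 : ℝ)) := by
      gcongr; exact hG x
    have k6 : H * (‖∫ u in x..t, f u‖ + |t - x| ^ (3 / 2 : ℝ)) ≤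
        H * (B * |t - x| ^ (1 / 2 : ℝ) + |t - x| ^ (1 / 2 : ℝ)) := by gcongr
    have p1 : 0 ≤ (G + H) * |t - x| ^ (1 / 2 : ℝ) := by positivity
    nlinarith
  · rw [mul_assoc, ← mul_sub, norm_mul, mul_assoc]; gcongr
    refine (hH x t h).trans ?_
    gcongr
    have : 0 ≤ G + (H * (B + 1) + G * ε) := by positivity
    linarith

lemma ii_conj (f : ℝ → ℂ) (x t : ℝ) :
    ∫ u in x..t, (starRingEnd ℂ) (f u) = (starRingEnd ℂ) (∫ u in x..t, f u) := by
  unfold intervalIntegral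
  rw [integral_conj, integral_conj, map_sub]

lemma Good.conj {ε : ℝ} {f a : ℝ → ℂ} {H : ℝ} (h : Good ε f a H) :
    Good ε (fun u => (starRingEnd ℂ) (f u)) (fun t => (starRingEnd ℂ) (a t)) H := by
  refine ⟨h.h0, fun t => by simpa using h.g1 t, fun x t hx => ?_, fun x t hx => ?_⟩
  · rw [← map_sub, Complex.norm_conj]; exact h.g2 x t hx
  · rw [ii_conj, Complex.norm_conj]
    refine le_trans (le_of_eq ?_) (h.g3 x t hx)
    rw [← Complex.norm_conj]; simp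

end Pool.Agent.H.MP_0e9c6a_an
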