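import Mathlib

set_option autoImplicit false
set_option maxHeartbeats 400000
open MeasureTheory Complex Set Filter Topology

namespace Pool.Agent.H.MP_0e9c6a_an

/-- The open upper half plane. -/
def UH : Set ℂ := {z | 0 < z.im}

lemma isOpen_UH : IsOpen UH := isOpen_lt continuous_const Complex.continuous_im

lemma jensen_disc {h : ℂ → ℂ} {r : ℝ} (hr : 0 < r)
    (hh : AnalyticOnNhd ℂ h (Metric.closedBall 0 r)) :
    Real.log ‖h 0‖ ≤ Real.circleAverage (fun w => Real.posLog ‖h w‖) 0 r := by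
  by_cases h0 : h 0 = 0
  · rw [h0, norm_zero, Real.log_zero]
    exact Real.circleAverage_nonneg_of_nonneg (fun _ _ => Real.posLog_nonneg)
  · have hh' : AnalyticOnNhd ℂ h (Metric.closedBall 0 |r|) := by rwa [abs_of_pos hr]
    have hJ := hh'.circleAverage_log_norm hr.ne' h0
    have hnn : 0 ≤ ∑ᶠ u, ((MeromorphicOn.divisor h (Metric.closedBall 0 |r|) u : ℤ) : ℝ) *
        Real.log (r * ‖(0 : ℂ) - u‖⁻¹) := by
      apply finsum_nonneg
      intro u
      by_cases hu : u ∈ Metric.closedBall (0 : ℂ) |r|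
      · apply mul_nonneg
        · exact_mod_cast (MeromorphicOn.AnalyticOnNhd.divisor_nonneg hh' u)
        · by_cases hu0 : u = 0
          · simp [hu0]
          · apply Real.log_nonneg
            have hn : 0 < ‖u‖ := norm_pos_iff.mpr hu0
            rw [abs_of_pos hr, Metric.mem_closedBall, dist_zero_right] at hu
            rw [zero_sub, norm_neg, ← div_eq_mul_inv, one_le_div hn]
            exact hu
      · rw [Function.locallyFinsuppWithin.apply_eq_zero_of_notMem _ hu]
        simp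
    have h1 : Real.log ‖h 0‖ ≤ Real.circleAverage (fun w => Real.log ‖h w‖) 0 r := by
      rw [hJ]; linarith
    refine h1.trans (Real.circleAverage_mono ?_ ?_ ?_)
    · exact (hh'.mono Metric.sphere_subset_closedBall).meromorphicOn.circleIntegrable_log_norm
    · apply ContinuousOn.circleIntegrable'
      exact Real.continuous_posLog.comp_continuousOn
        ((hh'.mono Metric.sphere_subset_closedBall).continuousOn.norm)
    · intro w _
      rw [Real.posLog_apply]; exact le_max_right _ _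

/-- Boundary parametrisation of the half plane seen from `x + i y`. -/
noncomputable def tt (x y θ : ℝ) : ℝ := x + y * Real.tan ((θ - Real.pi) / 2)

noncomputable def mob (x y : ℝ) (w : ℂ) : ℂ := x + y * (I * (1 + w) / (1 - w))

lemma mob_im (x : ℝ) {y : ℝ} (hy : 0 < y) {w : ℂ} (hw : ‖w‖ < 1) : 0 ≤ (mob x y w).im := by
  have h1 : (1 - w) ≠ 0 := by
    intro h
    have : w = 1 := by linear_combination -h
    rw [this] at hw; simp at hw
  have hn : 0 < Complex.normSq (1 - w) := Complex.normSq_pos.mpr h1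
  have h2 : Complex.normSq w < 1 := by
    rw [Complex.normSq_eq_norm_sq]; nlinarith [norm_nonneg w]
  have : (I * (1 + w) / (1 - w)).im = (1 - Complex.normSq w) / Complex.normSq (1 - w) := by
    rw [Complex.div_im]
    simp [Complex.normSq_apply]
    field_simp
    ring
  unfold mob
  simp only [add_im, ofReal_im, mul_im, ofReal_re, zero_mul, add_zero, zero_add]
  have h3 : (I * (1 + w) / (1 - w)).im ≥ 0 := by
    rw [this]; apply div_nonneg <;> linarith
  simp only [mul_im, ge_iff_le] at h3 ⊢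
  exact mul_nonneg hy.le h3

lemma mob_bdry (x y : ℝ) {θ : ℝ} (h0 : 0 < θ) (h1 : θ < 2 * Real.pi) :
    (1 - circleMap 0 1 θ) ≠ 0 ∧ mob x y (circleMap 0 1 θ) = (tt x y θ : ℂ) := by
  set a : ℝ := (θ - Real.pi) / 2 with ha
  have hc : 0 < Real.cos a := by
    apply Real.cos_pos_of_mem_Ioo
    constructor <;> linarith
  have hθ : θ = 2 * a + Real.pi := by rw [ha]; ring
  have hcm : circleMap 0 1 θ = -(((Real.cos a : ℂ) + (Real.sin a : ℂ) * I) ^ 2) := by
    rw [circleMap, hθ]
    push_cast
    rw [add_mul, Complex.exp_add, Complex.exp_pi_mul_I]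
    have : Complex.exp (2 * (a : ℂ) * I) = (Complex.exp (a * I)) ^ 2 := by
      rw [← Complex.exp_nat_mul]; congr 1; push_cast; ring
    rw [this, Complex.exp_mul_I]; ring
  have hsc : ((Real.sin a : ℂ)) ^ 2 + ((Real.cos a : ℂ)) ^ 2 = 1 := by
    exact_mod_cast Real.sin_sq_add_cos_sq a
  have hcne : ((Real.cos a : ℝ) : ℂ) ≠ 0 := by exact_mod_cast hc.ne'
  have hene : ((Real.cos a : ℂ) + (Real.sin a : ℂ) * I) ≠ 0 := by
    intro h
    have := congrArg Complex.re h
    simp only [add_re, ofReal_re, mul_re, I_re, mul_zero, ofReal_im, I_im, mul_one, sub_self,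
      add_zero, zero_re] at this
    exact hc.ne' this
  have hden : 1 - circleMap 0 1 θ =
      2 * (Real.cos a : ℂ) * ((Real.cos a : ℂ) + (Real.sin a : ℂ) * I) := by
    rw [hcm]
    linear_combination (-1 : ℂ) * hsc + ((Real.sin a : ℂ)) ^ 2 * I_sq
  have hnum : I * (1 + circleMap 0 1 θ) =
      2 * (Real.sin a : ℂ) * ((Real.cos a : ℂ) + (Real.sin a : ℂ) * I) := by
    rw [hcm]
    linear_combination (-I) * hsc
      + (-(Real.sin a : ℂ) ^ 2 * I - 2 * (Real.sin a : ℂ) * (Real.cos a : ℂ)) * I_sq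
  refine ⟨?_, ?_⟩
  · rw [hden]; exact mul_ne_zero (mul_ne_zero two_ne_zero hcne) hene
  · unfold mob tt
    rw [hden, hnum, ← ha, Real.tan_eq_sin_div_cos]
    push_cast
    congr 2
    have h2 := hcne
    have h3 := hene
    push_cast at h2 h3
    field_simp

lemma jensen_half {Ψ : ℂ → ℂ} (hΨ : DifferentiableOn ℂ Ψ UH) {Λ : ℝ}
    (hb : ∀ z ∈ UH, ‖Ψ z‖ ≤ Λ) (x : ℝ) {y δ : ℝ} (hy : 0 < y) (hδ : 0 < δ) :
    Real.log ‖Ψ (x + y * I + δ * I)‖ ≤
      (2 * Real.pi)⁻¹ * ∫ θ in (0 : ℝ)..2 * Real.pi, Real.posLog ‖Ψ (tt x y θ + δ * I)‖ := by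
  have hA : AnalyticOnNhd ℂ Ψ UH := hΨ.analyticOnNhd isOpen_UH
  have hmem : ∀ w : ℂ, ‖w‖ < 1 → mob x y w + δ * I ∈ UH := by
    intro w hw
    have := mob_im x hy hw
    simp only [UH, mem_setOf_eq, add_im, mul_im, ofReal_re, I_im, mul_one, ofReal_im, I_re,
      mul_zero, add_zero]
    linarith
  have hmobA : ∀ w : ℂ, (1 - w) ≠ 0 → AnalyticAt ℂ (fun w => mob x y w + δ * I) w := by
    intro w hw
    unfold mob
    refine (analyticAt_const.add (analyticAt_const.mul (AnalyticAt.div ?_ ?_ hw))).add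
      analyticAt_const
    · exact analyticAt_const.mul (analyticAt_const.add analyticAt_id)
    · exact analyticAt_const.sub analyticAt_id
  have hne : ∀ w : ℂ, ‖w‖ < 1 → (1 - w) ≠ 0 := by
    intro w hw h
    have : w = 1 := by linear_combination -h
    rw [this] at hw; simp at hw
  have hAn : ∀ w : ℂ, ‖w‖ < 1 → AnalyticAt ℂ (fun w => Ψ (mob x y w + δ * I)) w := by
    intro w hw
    exact AnalyticAt.comp (g := Ψ) (f := fun w => mob x y w + δ * I) (hA _ (hmem w hw))
      (hmobA w (hne w hw))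
  have hstep : ∀ r : ℝ, 0 < r → r < 1 → Real.log ‖Ψ (x + y * I + δ * I)‖ ≤
      (2 * Real.pi)⁻¹ * ∫ θ in (0 : ℝ)..2 * Real.pi,
        Real.posLog ‖Ψ (mob x y (circleMap 0 r θ) + δ * I)‖ := by
    intro r hr hr1
    have := jensen_disc (h := fun w => Ψ (mob x y w + δ * I)) hr (fun w hw => hAn w (by
      rw [Metric.mem_closedBall, dist_zero_right] at hw; linarith))
    rw [Real.circleAverage_def, smul_eq_mul] at this
    have e : mob x y 0 = x + y * I := by simp [mob]
    simpa only [e] using this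
  have hlim : Tendsto (fun r : ℝ => ∫ θ in (0 : ℝ)..2 * Real.pi,
        Real.posLog ‖Ψ (mob x y (circleMap 0 r θ) + δ * I)‖) (𝓝[<] 1)
      (𝓝 (∫ θ in (0 : ℝ)..2 * Real.pi, Real.posLog ‖Ψ (tt x y θ + δ * I)‖)) := by
    have hev : ∀ᶠ r : ℝ in 𝓝[<] 1, 0 < r ∧ r < 1 := by
      filter_upwards [Ioo_mem_nhdsLT (show (0 : ℝ) < 1 by norm_num)] with r hr using hr
    have hn : ∀ r : ℝ, 0 < r → r < 1 → ∀ θ : ℝ, ‖circleMap 0 r θ‖ < 1 := by
      intro r h0 h1 θ
      rw [norm_circleMap_zero, abs_of_pos h0]; exact h1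
    apply intervalIntegral.tendsto_integral_filter_of_dominated_convergence
      (fun _ => Real.posLog Λ)
    · filter_upwards [hev] with r hr
      apply Continuous.aestronglyMeasurable
      apply Real.continuous_posLog.comp
      apply Continuous.norm
      rw [continuous_iff_continuousAt]
      intro θ
      exact ContinuousAt.comp (g := fun w => Ψ (mob x y w + δ * I)) (f := circleMap 0 r)
        (hAn _ (hn r hr.1 hr.2 θ)).continuousAt (continuous_circleMap 0 r).continuousAt
    · filter_upwards [hev] with r hr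
      refine ae_of_all _ (fun θ _ => ?_)
      rw [Real.norm_of_nonneg Real.posLog_nonneg]
      exact Real.posLog_le_posLog (norm_nonneg _) (hb _ (hmem _ (hn r hr.1 hr.2 θ)))
    · exact intervalIntegrable_const
    · have hae : ∀ᵐ θ : ℝ, θ ≠ 2 * Real.pi := by
        rw [ae_iff]; simp
      filter_upwards [hae] with θ hθ hθI
      rw [uIoc_of_le (by positivity)] at hθI
      have hθ2 : θ < 2 * Real.pi := lt_of_le_of_ne hθI.2 hθ
      obtain ⟨b1, b2⟩ := mob_bdry x y hθI.1 hθ2
      have hm : ((tt x y θ : ℂ) + δ * I) ∈ UH := by simp [UH, hδ]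
      have c1 : ContinuousAt (fun r : ℝ => circleMap 0 r θ) 1 := by
        unfold circleMap; fun_prop
      have c2 : ContinuousAt (fun r : ℝ => mob x y (circleMap 0 r θ) + δ * I) 1 :=
        ContinuousAt.comp (g := fun w => mob x y w + δ * I) (f := fun r : ℝ => circleMap 0 r θ)
          (hmobA _ b1).continuousAt c1
      have c3 : ContinuousAt (fun r : ℝ => Ψ (mob x y (circleMap 0 r θ) + δ * I)) 1 := by
        refine ContinuousAt.comp (g := Ψ)
          (f := fun r : ℝ => mob x y (circleMap 0 r θ) + δ * I) ?_ c2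
        rw [b2]; exact (hA _ hm).continuousAt
      have c4 := (Real.continuous_posLog.continuousAt.comp c3.norm).tendsto
      simp only [Function.comp_def, b2] at c4
      exact c4.mono_left nhdsWithin_le_nhds
  refine ge_of_tendsto (hlim.const_mul (2 * Real.pi)⁻¹) ?_
  filter_upwards [Ioo_mem_nhdsLT (show (0 : ℝ) < 1 by norm_num)] with r hr
  exact hstep r hr.1 hr.2

end Pool.Agent.H.MP_0e9c6a_an
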