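import Pool.Agent.H.MP_0e9c6a_an.Bdry

set_option autoImplicit false
set_option maxHeartbeats 400000
open MeasureTheory Complex Set Filter Topology

namespace Pool.Agent.H.MP_0e9c6a_an

lemma seg_est {F : ℂ → ℂ} (hF : DifferentiableOn ℂ F UH) (a : ℂ) {x d δ M : ℝ} (hd : 0 < d)
    (hδ : 0 < δ)
    (h1 : ∀ s ∈ Icc (0 : ℝ) d, ‖F ((x + s : ℝ) + (δ + s : ℝ) * I) - a‖ ≤ M)
    (h2 : ∀ s ∈ Icc (0 : ℝ) d, ‖F ((x + 2 * d - s : ℝ) + (δ + s : ℝ) * I) - a‖ ≤ M) :
    ‖(∫ s in x..(x + 2 * d), F (s + δ * I)) - a * (2 * d)‖ ≤ 4 * M * d := by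
  set R : ℝ := (d ^ 2 + (d + δ) ^ 2) / δ with hR
  have hR0 : 0 < R := by positivity
  have hRδ : R * δ = d ^ 2 + (d + δ) ^ 2 := by rw [hR]; field_simp
  have hsub : Metric.ball ((x + d : ℝ) + R * I : ℂ) R ⊆ UH := by
    intro w hw
    rw [Metric.mem_ball, dist_eq_norm] at hw
    have := Complex.abs_im_le_norm (w - ((x + d : ℝ) + R * I))
    have h3 := (abs_lt.mp (this.trans_lt hw)).1
    simp only [sub_im, add_im, ofReal_im, mul_im, ofReal_re, I_im, mul_one, I_re, mul_zero,
      add_zero, zero_add] at h3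
    show 0 < w.im
    linarith
  have hin : ∀ ξ η : ℝ, |ξ - (x + d)| ≤ d → δ ≤ η → η ≤ d + δ →
      ((ξ : ℂ) + η * I) ∈ Metric.ball ((x + d : ℝ) + R * I : ℂ) R := by
    intro ξ η a1 a2 a3
    rw [Metric.mem_ball, dist_eq_norm]
    apply lt_of_pow_lt_pow_left₀ 2 hR0.le
    rw [← Complex.normSq_eq_norm_sq, Complex.normSq_apply]
    simp only [sub_re, add_re, ofReal_re, mul_re, I_re, mul_zero, ofReal_im, I_im, mul_one,
      sub_self, add_zero, sub_im, add_im, mul_im, zero_add]
    have b1 : (ξ - (x + d)) * (ξ - (x + d)) ≤ d ^ 2 := by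
      have := abs_le.mp a1; nlinarith [this.1, this.2]
    have b2 : η * η ≤ (d + δ) ^ 2 := by nlinarith
    have b3 : R * δ ≤ R * η := by gcongr
    nlinarith
  obtain ⟨A, hA⟩ := (hF.mono hsub).isExactOn_ball
  have hI : ∫ s in x..(x + 2 * d), F (s + δ * I) =
      A ((x + 2 * d : ℝ) + δ * I) - A (x + δ * I) := by
    have hmem : ∀ s ∈ uIcc x (x + 2 * d), ((s : ℂ) + δ * I) ∈
        Metric.ball ((x + d : ℝ) + R * I : ℂ) R := by
      intro s hs
      rw [uIcc_of_le (by linarith)] at hs
      exact hin s δ (abs_le.mpr ⟨by linarith [hs.1], by linarith [hs.2]⟩) le_rfl (by linarith)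
    refine intervalIntegral.integral_eq_sub_of_hasDerivAt (f := fun s : ℝ => A (s + δ * I))
      (fun s hs => ?_) ?_
    · have c1 : HasDerivAt (fun z : ℂ => A (z + δ * I)) (F (s + δ * I)) s :=
        HasDerivAt.comp_add_const _ _ (hA _ (hmem s hs))
      exact c1.comp_ofReal
    · apply ContinuousOn.intervalIntegrable
      exact hF.continuousOn.comp (by fun_prop) (fun s hs => hsub (hmem s hs))
  have seg : ∀ (b c : ℂ), ‖c‖ ≤ 2 →
      (∀ s ∈ Icc (0 : ℝ) d, (b + s * c) ∈ Metric.ball ((x + d : ℝ) + R * I : ℂ) R) →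
      (∀ s ∈ Icc (0 : ℝ) d, ‖F (b + s * c) - a‖ ≤ M) →
      ‖(A (b + d * c) - a * (b + d * c)) - (A b - a * b)‖ ≤ 2 * M * d := by
    intro b c hc hm hb
    have hder : ∀ s ∈ Icc (0 : ℝ) d, HasDerivWithinAt
        (fun s : ℝ => A (b + s * c) - a * (b + s * c)) ((F (b + s * c) - a) * c) (Icc 0 d) s := by
      intro s hs
      have c0 : HasDerivAt (fun z : ℂ => b + z * c) c s := by
        simpa using ((hasDerivAt_id (s : ℂ)).mul_const c).const_add b
      have c1 := ((hA _ (hm s hs)).sub ((hasDerivAt_id _).const_mul a)).comp (s : ℂ) c0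
      have c2 : HasDerivAt (fun z : ℂ => A (b + z * c) - a * (b + z * c))
          ((F (b + s * c) - a) * c) s := by
        simpa only [Function.comp_def, mul_one, Pi.sub_apply, id] using c1
      exact c2.comp_ofReal.hasDerivWithinAt
    have := norm_image_sub_le_of_norm_deriv_le_segment' (C := 2 * M) hder (fun s hs => by
      rw [norm_mul]
      have := hb s (Ico_subset_Icc_self hs)
      nlinarith [norm_nonneg (F (b + s * c) - a), norm_nonneg c]) d (right_mem_Icc.mpr hd.le)
    simpa using this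
  have n1 : ‖(1 : ℂ) + I‖ ≤ 2 := by
    refine (norm_add_le _ _).trans ?_; simp; norm_num
  have n2 : ‖(-1 : ℂ) + I‖ ≤ 2 := by
    refine (norm_add_le _ _).trans ?_; simp; norm_num
  have e1 : ∀ s : ℝ, (x : ℂ) + δ * I + s * (1 + I) = (x + s : ℝ) + (δ + s : ℝ) * I := by
    intro s; push_cast; ring
  have e2 : ∀ s : ℝ, ((x + 2 * d : ℝ) : ℂ) + δ * I + s * (-1 + I) =
      (x + 2 * d - s : ℝ) + (δ + s : ℝ) * I := by
    intro s; push_cast; ring
  have s1 := seg (x + δ * I) (1 + I) n1 (fun s hs => by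
      rw [e1]
      exact hin _ _ (abs_le.mpr ⟨by linarith [hs.1], by linarith [hs.2]⟩) (by linarith [hs.1])
        (by linarith [hs.2])) (fun s hs => by rw [e1]; exact h1 s hs)
  have s2 := seg ((x + 2 * d : ℝ) + δ * I) (-1 + I) n2 (fun s hs => by
      rw [e2]
      exact hin _ _ (abs_le.mpr ⟨by linarith [hs.2], by linarith [hs.1]⟩) (by linarith [hs.1])
        (by linarith [hs.2])) (fun s hs => by rw [e2]; exact h2 s hs)
  have e3 : ((x + 2 * d : ℝ) : ℂ) + δ * I + d * (-1 + I) = x + δ * I + d * (1 + I) := by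
    push_cast; ring
  rw [e3] at s2
  have := norm_sub_le_of_le s1 s2
  rw [hI]
  refine le_trans (le_of_eq ?_) (this.trans (le_of_eq (by ring)))
  congr 1
  push_cast; ring

noncomputable def sg (v : ℝ) : ℝ := if 0 < v then Real.pi / 2 else -(Real.pi / 2)

lemma tendsto_sg {v : ℝ} (hv : v ≠ 0) :
    Tendsto (fun δ : ℝ => Real.arctan (v / δ)) (𝓝[>] 0) (𝓝 (sg v)) := by
  unfold sg
  split_ifs with h
  · have : Tendsto (fun δ : ℝ => v / δ) (𝓝[>] 0) atTop := by
      simp only [div_eq_mul_inv]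
      exact tendsto_inv_nhdsGT_zero.const_mul_atTop h
    exact (Real.tendsto_arctan_atTop.mono_right nhdsWithin_le_nhds).comp this
  · have h' : v < 0 := lt_of_le_of_ne (not_lt.mp h) hv
    have : Tendsto (fun δ : ℝ => v / δ) (𝓝[>] 0) atBot := by
      simp only [div_eq_mul_inv]
      exact tendsto_inv_nhdsGT_zero.const_mul_atTop_of_neg h'
    exact (Real.tendsto_arctan_atBot.mono_right nhdsWithin_le_nhds).comp this

lemma pois_inner (x t u : ℝ) {δ : ℝ} (hδ : 0 < δ) :
    ∫ s in x..t, δ / ((u - s) ^ 2 + δ ^ 2) =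
      Real.arctan ((t - u) / δ) - Real.arctan ((x - u) / δ) := by
  refine intervalIntegral.integral_eq_sub_of_hasDerivAt
    (f := fun s : ℝ => Real.arctan ((s - u) / δ)) (fun s _ => ?_) ?_
  · have h1 : HasDerivAt (fun s : ℝ => (s - u) / δ) (1 / δ) s :=
      ((hasDerivAt_id s).sub_const u).div_const δ
    refine h1.arctan.congr_deriv ?_
    field_simp; ring
  · apply Continuous.intervalIntegrable
    refine continuous_const.div (by fun_prop) fun s => by positivity

lemma pois_diff {f : ℝ → ℂ} (hf : L2 f) (s : ℝ) {δ : ℝ} (hδ : 0 < δ) :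
    CC f (s + δ * I) - (starRingEnd ℂ) (CC (fun u => (starRingEnd ℂ) (f u)) (s + δ * I)) =
      ∫ u : ℝ, f u * (2 * I * (δ / ((u - s) ^ 2 + δ ^ 2) : ℝ)) := by
  rw [CC_conj, Complex.conj_conj]
  have e : (starRingEnd ℂ) ((s : ℂ) + δ * I) = s - δ * I := by simp; ring
  rw [e]
  unfold CC
  rw [← integral_sub (CC_int hf (by simpa using hδ.ne')) (CC_int hf (by simpa using hδ.ne'))]
  refine integral_congr_ae (ae_of_all _ fun u => ?_)
  have h1 : (u : ℂ) - (s + δ * I) ≠ 0 := sub_ne u (by simpa using hδ.ne')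
  have h2 : (u : ℂ) - (s - δ * I) ≠ 0 := sub_ne u (by simpa using hδ.ne')
  have h3 : (((u - s) ^ 2 + δ ^ 2 : ℝ) : ℂ) = (u - (s + δ * I)) * (u - (s - δ * I)) := by
    push_cast; linear_combination (δ : ℂ) ^ 2 * I_sq
  beta_reduce
  rw [Complex.ofReal_div, h3]
  field_simp
  ring

lemma pois_swap {f : ℝ → ℂ} (hf : L2 f) {x t : ℝ} (hxt : x < t) {δ : ℝ} (hδ : 0 < δ) :
    ∫ s in x..t, (CC f (s + δ * I) -
      (starRingEnd ℂ) (CC (fun u => (starRingEnd ℂ) (f u)) (s + δ * I))) =
      ∫ u : ℝ, f u * (2 * I * (Real.arctan ((t - u) / δ) - Real.arctan ((x - u) / δ) : ℝ)) := by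
  simp only [pois_diff hf _ hδ]
  rw [intervalIntegral_integral_swap]
  · refine integral_congr_ae (ae_of_all _ fun u => ?_)
    beta_reduce
    rw [intervalIntegral.integral_const_mul, intervalIntegral.integral_const_mul,
      intervalIntegral.integral_ofReal, pois_inner x t u hδ]
  · rw [uIoc_of_le hxt.le]
    have i1 := ((CC_int hf (z := x + δ * I) (by simpa using hδ.ne')).norm.const_mul
      (2 * (1 + (t - x) / δ))).comp_snd (volume.restrict (Ioc x t))
    refine Integrable.mono' i1 ?_ ?_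
    · have m1 : Measurable (fun p : ℝ × ℝ =>
          2 * I * ((δ / ((p.2 - p.1) ^ 2 + δ ^ 2) : ℝ) : ℂ)) := by fun_prop
      exact (hf.1.comp_snd).mul m1.aestronglyMeasurable
    · have : ∀ᵐ p : ℝ × ℝ ∂((volume.restrict (Ioc x t)).prod volume), p.1 ∈ Ioc x t :=
        (Measure.quasiMeasurePreserving_fst).ae (ae_restrict_mem measurableSet_Ioc)
      filter_upwards [this] with p hp
      obtain ⟨s, u⟩ := p
      simp only [Function.uncurry_apply_pair] at hp ⊢
      rw [norm_mul, norm_mul, norm_mul, Complex.norm_I, Complex.norm_real, norm_div (f u),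
        Real.norm_of_nonneg (by positivity)]
      have h0 := normsq_sub u (s + δ * I)
      simp only [add_re, ofReal_re, mul_re, I_re, mul_zero, ofReal_im, I_im, mul_one, sub_self,
        add_zero, add_im, mul_im, zero_add] at h0
      rw [← h0]
      have h3 : δ ≤ ‖(u : ℂ) - (s + δ * I)‖ := by
        have := abs_im_le u (s + δ * I)
        simpa [abs_of_pos hδ] using this
      have h4 : ‖(u : ℂ) - (x + δ * I)‖ ≤ ‖(u : ℂ) - (s + δ * I)‖ + (t - x) := by
        have : (u : ℂ) - (x + δ * I) = (u - (s + δ * I)) + ((s - x : ℝ) : ℂ) := by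
          push_cast; ring
        rw [this]
        refine (norm_add_le _ _).trans ?_
        rw [Complex.norm_real, Real.norm_of_nonneg (by linarith [hp.1])]
        linarith [hp.2]
      have h5 : 0 < ‖(u : ℂ) - (x + δ * I)‖ :=
        norm_pos_iff.mpr (sub_ne u (by simpa using hδ.ne'))
      generalize ‖(u : ℂ) - (x + δ * I)‖ = b at *
      generalize ‖(u : ℂ) - (s + δ * I)‖ = c at *
      have hc : 0 < c := by linarith
      have h6 : δ / c ^ 2 ≤ (1 + (t - x) / δ) / b := by
        rw [div_le_div_iff₀ (by positivity) h5]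
        have h7 : (t - x) ≤ (t - x) / δ * c := by
          rw [div_mul_eq_mul_div, le_div_iff₀ hδ]; nlinarith
        have h8 : b ≤ (1 + (t - x) / δ) * c := by linarith
        have h9 : 0 ≤ (1 + (t - x) / δ) * c := by linarith
        nlinarith
      simp only [Complex.norm_ofNat, mul_one]
      calc ‖f u‖ * (2 * (δ / c ^ 2)) ≤ ‖f u‖ * (2 * ((1 + (t - x) / δ) / b)) := by gcongr
        _ = _ := by ring

lemma pois_lim {f : ℝ → ℂ} (hf : L2 f) {x t : ℝ} (hxt : x < t) :
    Tendsto (fun δ : ℝ => ∫ s in x..t, (CC f (s + δ * I) -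
      (starRingEnd ℂ) (CC (fun u => (starRingEnd ℂ) (f u)) (s + δ * I)))) (𝓝[>] 0)
      (𝓝 (2 * Real.pi * I * ∫ u in x..t, f u)) := by
  have hpi := Real.pi_pos
  have e : 2 * Real.pi * I * ∫ u in x..t, f u =
      ∫ u : ℝ, f u * (2 * I * (sg (t - u) - sg (x - u) : ℝ)) := by
    rw [intervalIntegral.integral_of_le hxt.le, ← integral_const_mul,
      ← integral_indicator measurableSet_Ioc]
    have hae : ∀ᵐ u : ℝ, u ≠ x ∧ u ≠ t := by
      refine Filter.Eventually.and ?_ ?_ <;> (rw [ae_iff]; simp)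
    refine integral_congr_ae ?_
    filter_upwards [hae] with u hu
    unfold sg
    by_cases h1 : u ∈ Ioc x t
    · rw [indicator_of_mem h1, if_pos (by
        have := lt_of_le_of_ne h1.2 hu.2; linarith), if_neg (by linarith [h1.1])]
      push_cast; ring
    · rw [indicator_of_notMem h1]
      by_cases h2 : u < x
      · rw [if_pos (by linarith), if_pos (by linarith)]; simp
      · have h3 : x < u := lt_of_le_of_ne (not_lt.mp h2) (Ne.symm hu.1)
        have h4 : t < u := by
          by_contra h5; exact h1 ⟨h3, not_lt.mp h5⟩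
        rw [if_neg (by linarith), if_neg (by linarith)]; simp
  rw [e]
  have hcong : (fun δ : ℝ => ∫ u : ℝ, f u *
      (2 * I * (Real.arctan ((t - u) / δ) - Real.arctan ((x - u) / δ) : ℝ))) =ᶠ[𝓝[>] 0]
      (fun δ : ℝ => ∫ s in x..t, (CC f (s + δ * I) -
      (starRingEnd ℂ) (CC (fun u => (starRingEnd ℂ) (f u)) (s + δ * I)))) := by
    filter_upwards [self_mem_nhdsWithin] with δ hδ using (pois_swap hf hxt hδ).symm
  refine Tendsto.congr' hcong ?_
  apply tendsto_integral_filter_of_dominated_convergence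
    (fun u => 2 * ((Real.pi + (t - x)) * (t - x + 2)) * ‖f u / (u - (x + (1 : ℝ) * I))‖)
  · refine Eventually.of_forall fun δ => ?_
    have m1 : Measurable (fun u : ℝ =>
        2 * I * ((Real.arctan ((t - u) / δ) - Real.arctan ((x - u) / δ) : ℝ) : ℂ)) := by
      have := Real.continuous_arctan.measurable
      fun_prop
    exact hf.1.mul m1.aestronglyMeasurable
  · filter_upwards [Ioo_mem_nhdsGT (show (0 : ℝ) < 1 by norm_num)] with δ hδ
    refine ae_of_all _ fun u => ?_
    have h5 : 0 < ‖(u : ℂ) - (x + (1 : ℝ) * I)‖ := norm_pos_iff.mpr (sub_ne u (by simp))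
    have h4 : ‖(u : ℂ) - (x + (1 : ℝ) * I)‖ ≤ |u - x| + 1 := by
      have : (u : ℂ) - (x + (1 : ℝ) * I) = ((u - x : ℝ) : ℂ) - I := by push_cast; ring
      rw [this]
      refine (norm_sub_le _ _).trans ?_
      rw [Complex.norm_real, Complex.norm_I, Real.norm_eq_abs]
    have h6 : ‖Real.arctan ((t - u) / δ) - Real.arctan ((x - u) / δ)‖ ≤
        (Real.pi + (t - x)) * (t - x + 2) / ‖(u : ℂ) - (x + (1 : ℝ) * I)‖ := by
      generalize ‖(u : ℂ) - (x + (1 : ℝ) * I)‖ = b at *
      by_cases hu : x - 1 ≤ u ∧ u ≤ t + 1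
      · have a1 := Real.arctan_lt_pi_div_two ((t - u) / δ)
        have a2 := Real.arctan_lt_pi_div_two ((x - u) / δ)
        have a3 := Real.neg_pi_div_two_lt_arctan ((t - u) / δ)
        have a4 := Real.neg_pi_div_two_lt_arctan ((x - u) / δ)
        have a5 : ‖Real.arctan ((t - u) / δ) - Real.arctan ((x - u) / δ)‖ ≤ Real.pi :=
          abs_le.mpr ⟨by linarith, by linarith⟩
        refine a5.trans ?_
        rw [le_div_iff₀ h5]
        have a6 : |u - x| ≤ t - x + 1 := abs_le.mpr ⟨by linarith [hu.1], by linarith [hu.2]⟩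
        have a7 : b ≤ t - x + 2 := by linarith
        nlinarith
      · rw [← pois_inner x t u hδ.1]
        refine (intervalIntegral.norm_integral_le_of_norm_le_const (C := (t - x + 2) / b)
          (fun s hs => ?_)).trans ?_
        · rw [uIoc_of_le hxt.le] at hs
          have a1 : 1 ≤ |u - s| := by
            rw [not_and_or] at hu
            rcases hu with hu | hu
            · rw [abs_of_neg (by linarith [hs.1])]; linarith [hs.1]
            · rw [abs_of_pos (by linarith [hs.2])]; linarith [hs.2]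
          have a2 : |u - x| ≤ |u - s| + (t - x) := by
            have := abs_add_le (u - s) (s - x)
            rw [abs_of_pos (show 0 < s - x by linarith [hs.1])] at this
            have e : u - s + (s - x) = u - x := by ring
            rw [e] at this; linarith [hs.2]
          have hδ0 := hδ.1
          rw [Real.norm_of_nonneg (by positivity), div_le_div_iff₀ (by positivity) h5,
            ← sq_abs (u - s)]
          generalize |u - s| = v at *
          have a3 : b ≤ (t - x + 2) * v := by nlinarith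
          have a4 : δ * b ≤ b := by nlinarith [hδ.2]
          have a5 : v ≤ v ^ 2 + δ ^ 2 := by nlinarith
          nlinarith
        · rw [abs_of_pos (by linarith), div_mul_eq_mul_div]
          refine div_le_div_of_nonneg_right ?_ h5.le
          nlinarith
    rw [norm_mul, norm_mul, norm_mul, Complex.norm_I, Complex.norm_real, norm_div (f u)]
    simp only [Complex.norm_ofNat, mul_one]
    calc _ ≤ ‖f u‖ * (2 * ((Real.pi + (t - x)) * (t - x + 2) /
          ‖(u : ℂ) - (x + (1 : ℝ) * I)‖)) := by gcongr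
      _ = _ := by ring
  · exact (CC_int hf (by simp)).norm.const_mul _
  · have hae : ∀ᵐ u : ℝ, u ≠ x ∧ u ≠ t := by
      refine Filter.Eventually.and ?_ ?_ <;> (rw [ae_iff]; simp)
    filter_upwards [hae] with u hu
    have h1 := (tendsto_sg (sub_ne_zero.mpr (Ne.symm hu.2))).sub
      (tendsto_sg (sub_ne_zero.mpr (Ne.symm hu.1)))
    exact ((Complex.continuous_ofReal.tendsto _).comp h1 |>.const_mul (2 * I)).const_mul (f u)

end Pool.Agent.H.MP_0e9c6a_an
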