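import Pool.Agent.H.MP_0e9c6a_an.Gg

set_option autoImplicit false
set_option maxHeartbeats 400000
open MeasureTheory Complex Set Filter Topology

namespace Pool.Agent.H.MP_0e9c6a_an

/-- Vertical boundary values of the Cauchy transform on `E`. -/
def BV (f a : ℝ → ℂ) (E : Set ℝ) : Prop :=
  ∀ᵐ t : ℝ, t ∈ E → Tendsto (fun δ : ℝ => CC f (t + δ * I)) (𝓝[>] 0) (𝓝 (a t))

lemma BV.mono {f a : ℝ → ℂ} {E E' : Set ℝ} (h : BV f a E) (hE : E' ⊆ E) : BV f a E' := by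
  filter_upwards [h] with t ht ht' using ht (hE ht')

lemma core {f : ℝ → ℂ} (hf : L2 f) {H A α : ℝ} (hH : 0 ≤ H) (hA : 0 ≤ A) (hα : 0 ≤ α) :
    ∃ C : ℝ, 0 ≤ C ∧ ∀ (a : ℝ → ℂ) (E : Set ℝ), BV f a E → ∀ (a0 b : ℂ) (x0 x y : ℝ),
      ‖a0‖ ≤ H → ‖b‖ ≤ H → 0 < y → 21 * y ≤ 1 → |x - x0| ≤ y →
      volume (Ioo (x0 - 21 * y) (x0 + 21 * y) \ E) ≤ ENNReal.ofReal (y / 5) →
      (∀ t ∈ E, |t - x0| < 21 * y → ‖a t - a0 - b * (t - x0)‖ ≤ A * (21 * y) ^ α) →
      ‖CC f (x + y * I) - a0 - b * (x + y * I - x0)‖ ≤ C * y ^ (9 / 10 * α - 1 / 20) := by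
  have hpi := Real.pi_pos
  obtain ⟨L, hL0, hL1, hL2, hL3⟩ : ∃ L : ℝ, 0 ≤ L ∧
      (NN (fun u => (p1 f u : ℂ)) + Real.pi) / 2 ≤ L ∧
      (NN (fun u => (p2 f u : ℂ)) + Real.pi) / 2 ≤ L ∧
      (NN (fun u => (p3 f u : ℂ)) + Real.pi) / 2 ≤ L := by
    have n1 := NN_nonneg (fun u => (p1 f u : ℂ))
    have n2 := NN_nonneg (fun u => (p2 f u : ℂ))
    have n3 := NN_nonneg (fun u => (p3 f u : ℂ))
    exact ⟨NN (fun u => (p1 f u : ℂ)) + NN (fun u => (p2 f u : ℂ)) + NN (fun u => (p3 f u : ℂ))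
      + Real.pi, by linarith, by linarith, by linarith, by linarith⟩
  refine ⟨16 * (((A + 1) * 21 ^ α) ^ (9 / 10 : ℝ) *
    (5 * (2 + H) * (L + A + 3)) ^ (1 / 10 : ℝ)), by positivity, ?_⟩
  intro a E hBV a0 b x0 x y ha0 hb hy hy1 hx hE hA'
  have hy2 : y ≤ 1 := by linarith
  have hρ : 1 ≤ y ^ (-1 / 2 : ℝ) :=
    Real.one_le_rpow_of_pos_of_le_one_of_nonpos hy hy2 (by norm_num)
  have hs1 : (21 * y) ^ α ≤ 1 := Real.rpow_le_one (by positivity) hy1 hα
  have hs0 : 0 < (21 * y) ^ α := by positivity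
  have him : ((x : ℂ) + y * I).im = y := by simp
  have hlam : L + A + 3 ≤ (L + A + 3) * y ^ (-1 / 2 : ℝ) := by nlinarith
  have bb : ∀ p : ℝ → ℂ, L2 p → (NN p + Real.pi) / 2 ≤ L →
      ‖CC p (x + y * I)‖ ≤ (L + A + 3) * y ^ (-1 / 2 : ℝ) := by
    intro p hp hpL
    have := CC_bound hp (z := x + y * I) (by rw [him]; exact hy)
    rw [him] at this
    refine this.trans ?_
    gcongr; linarith
  set G : Set ℝ := {t | t ∈ E ∧ |t - x0| < 21 * y ∧
    Tendsto (fun δ : ℝ => CC f (t + δ * I)) (𝓝[>] 0) (𝓝 (a t))} with hGdef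
  have hG : volume (Ioo (x0 - 21 * y) (x0 + 21 * y) \ G) ≤ ENNReal.ofReal (y / 5) := by
    refine le_trans (measure_mono_ae ?_) hE
    filter_upwards [hBV] with t ht htI
    refine ⟨htI.1, fun hE' => htI.2 ⟨hE', ?_, ht hE'⟩⟩
    exact abs_lt.mpr ⟨by linarith [htI.1.1], by linarith [htI.1.2]⟩
  have h := two_const' (Φ := fun w => CC f w - a0 - b * (w - x0))
    (Q1 := CC (fun u => (p1 f u : ℂ))) (Q2 := CC (fun u => (p2 f u : ℂ)))
    (Q3 := CC (fun u => (p3 f u : ℂ))) (Q4 := fun w => w - x0)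
    (((CC_diff hf).sub_const _).sub (by fun_prop)) (CC_diff (L2_p1 hf)) (CC_diff (L2_p2 hf))
    (CC_diff (L2_p3 hf)) (by fun_prop)
    (fun z hz => CC_im_nonneg (p1_nonneg f) (L2_p1 hf) hz)
    (fun z hz => CC_im_nonneg (p2_nonneg f) (L2_p2 hf) hz)
    (fun z hz => CC_im_nonneg (p3_nonneg f) (L2_p3 hf) hz)
    (fun z hz => by simpa using le_of_lt hz)
    (K := 2 + H) (lam := (L + A + 3) * y ^ (-1 / 2 : ℝ)) (s := (A + 1) * (21 * y) ^ α)
    (by positivity) (by linarith) (by linarith) (by nlinarith)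
    (fun z hz => by
      have k1 := CC_split hf hz
      have k2 := norm_sub_le (CC f z - a0) (b * (z - x0))
      have k3 := norm_sub_le (CC f z) a0
      rw [norm_mul] at k2
      have k4 : ‖b‖ * ‖z - x0‖ ≤ H * ‖z - x0‖ := by gcongr
      nlinarith [norm_nonneg (CC (fun u => (p1 f u : ℂ)) z),
        norm_nonneg (CC (fun u => (p2 f u : ℂ)) z), norm_nonneg (CC (fun u => (p3 f u : ℂ)) z),
        norm_nonneg (z - x0)])
    hy hx (bb _ (L2_p1 hf) hL1) (bb _ (L2_p2 hf) hL2) (bb _ (L2_p3 hf) hL3)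
    (by
      have : (x : ℂ) + y * I - x0 = ((x - x0 : ℝ) : ℂ) + y * I := by push_cast; ring
      rw [this]
      refine (norm_add_le _ _).trans ?_
      rw [norm_mul, Complex.norm_I, Complex.norm_real, Complex.norm_real, Real.norm_eq_abs,
        Real.norm_of_nonneg hy.le]
      linarith) hG
    (fun t ht => by
      have t1 : Tendsto (fun δ : ℝ => ((t : ℂ) + δ * I - x0)) (𝓝[>] 0) (𝓝 (t - x0)) := by
        have : Continuous (fun δ : ℝ => ((t : ℂ) + δ * I - x0)) := by fun_prop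
        simpa using (this.tendsto 0).mono_left (nhdsWithin_le_nhds (s := Ioi (0 : ℝ)))
      have t2 := ((ht.2.2.sub_const a0).sub (t1.const_mul b)).norm
      have t3 : ‖a t - a0 - b * (t - x0)‖ < (A + 1) * (21 * y) ^ α := by
        have := hA' t ht.1 ht.2.1
        linarith
      filter_upwards [t2.eventually (gt_mem_nhds t3)] with δ hδ using hδ.le)
  refine h.trans (le_of_eq ?_)
  have e1 : (A + 1) * (21 * y) ^ α = ((A + 1) * 21 ^ α) * y ^ α := by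
    rw [Real.mul_rpow (by norm_num) hy.le]; ring
  have e2 : 5 * (2 + H) * ((L + A + 3) * y ^ (-1 / 2 : ℝ)) =
      (5 * (2 + H) * (L + A + 3)) * y ^ (-1 / 2 : ℝ) := by ring
  rw [e1, e2, Real.mul_rpow (by positivity) (by positivity),
    Real.mul_rpow (x := 5 * (2 + H) * (L + A + 3)) (by positivity) (by positivity),
    ← Real.rpow_mul hy.le, ← Real.rpow_mul hy.le,
    show 9 / 10 * α - 1 / 20 = α * (9 / 10) + -1 / 2 * (1 / 10) by ring, Real.rpow_add hy]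
  ring

/-- Uniform density of `E` at the points of `S` at scales up to `r`. -/
def Dens (S E : Set ℝ) (r0 : ℝ) : Prop :=
  ∀ x ∈ S, ∀ r, 0 < r → r ≤ r0 → volume (Ioo (x - r) (x + r) \ E) ≤ ENNReal.ofReal (r / 105)

lemma Dens.at {S E : Set ℝ} {r0 : ℝ} (h : Dens S E r0) {x y : ℝ} (hx : x ∈ S) (hy : 0 < y)
    (hy1 : 21 * y ≤ r0) :
    volume (Ioo (x - 21 * y) (x + 21 * y) \ E) ≤ ENNReal.ofReal (y / 5) := by
  have := h x hx (21 * y) (by positivity) hy1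
  rwa [show 21 * y / 105 = y / 5 by ring] at this

lemma step1 {ε : ℝ} {f a : ℝ → ℂ} {H : ℝ} (hf : L2 f) (hg : Good ε f a H) {S E : Set ℝ}
    (hBV : BV f a E) {r0 : ℝ} (hr : r0 ≤ 1) (hD : Dens S E r0) :
    ∃ C : ℝ, 0 ≤ C ∧ ∀ x0 ∈ S, ∀ x y : ℝ, 0 < y → 21 * y ≤ r0 → |x - x0| ≤ y →
      ‖CC f (x + y * I) - a x0‖ ≤ C * y ^ (2 / 5 : ℝ) := by
  obtain ⟨C, hC0, hC⟩ := core hf hg.h0 hg.h0 (show (0 : ℝ) ≤ 1 / 2 by norm_num)
  refine ⟨C, hC0, fun x0 hx0 x y hy hy1 hx => ?_⟩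
  have := hC a E hBV (a x0) 0 x0 x y (hg.g1 x0) (by simpa using hg.h0) hy (by linarith) hx
    (hD.at hx0 hy hy1) (fun t _ ht => by
      rw [zero_mul, sub_zero]
      refine (hg.g2 x0 t (by linarith)).trans ?_
      have := hg.h0
      gcongr)
  rw [zero_mul, sub_zero] at this
  convert this using 3
  norm_num

lemma step2a {ε : ℝ} {f a : ℝ → ℂ} {H : ℝ} (hf : L2 f) (hg : Good ε f a H) {S E : Set ℝ}
    (hBV : BV f a E) {r0 : ℝ} (hr : r0 ≤ 1) (hD : Dens S E r0) :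
    ∃ C : ℝ, 0 ≤ C ∧ ∀ x ∈ S, ∀ t ∈ S, x < t → 21 * (t - x) ≤ r0 → ∀ δ : ℝ, 0 < δ →
      δ ≤ (t - x) / 2 →
      ‖(∫ s in x..t, CC f (s + δ * I)) - a x * (t - x)‖ ≤ C * (t - x) ^ (7 / 5 : ℝ) := by
  obtain ⟨C, hC0, hC⟩ := step1 hf hg hBV hr hD
  have hH := hg.h0
  refine ⟨2 * (C + H), by positivity, fun x hx t ht hxt h21 δ hδ hδ2 => ?_⟩
  have hd : 0 < t - x := by linarith
  have hp : 0 ≤ (t - x) ^ (2 / 5 : ℝ) := by positivity
  have k := seg_est (CC_diff hf) (a x) (x := x) (d := (t - x) / 2)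
    (M := (C + H) * (t - x) ^ (2 / 5 : ℝ)) (by linarith) hδ
    (fun s hs => by
      have h1 := hC x hx (x + s) (δ + s) (by linarith [hs.1]) (by linarith [hs.2])
        (by rw [add_sub_cancel_left, abs_of_nonneg hs.1]; linarith)
      have h2 : (δ + s) ^ (2 / 5 : ℝ) ≤ (t - x) ^ (2 / 5 : ℝ) :=
        Real.rpow_le_rpow (by linarith [hs.1]) (by linarith [hs.2]) (by norm_num)
      refine h1.trans ?_
      nlinarith [mul_le_mul_of_nonneg_left h2 hC0, mul_nonneg hH hp])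
    (fun s hs => by
      have h1 := hC t ht (x + 2 * ((t - x) / 2) - s) (δ + s) (by linarith [hs.1])
        (by linarith [hs.2])
        (by
          rw [show x + 2 * ((t - x) / 2) - s - t = -s by ring, abs_neg, abs_of_nonneg hs.1]
          linarith)
      have h2 : (δ + s) ^ (2 / 5 : ℝ) ≤ (t - x) ^ (2 / 5 : ℝ) :=
        Real.rpow_le_rpow (by linarith [hs.1]) (by linarith [hs.2]) (by norm_num)
      have h3 := hg.g2 x t (by rw [abs_of_pos hd]; linarith)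
      rw [abs_of_pos hd] at h3
      have h4 : (t - x) ^ (1 / 2 : ℝ) ≤ (t - x) ^ (2 / 5 : ℝ) :=
        Real.rpow_le_rpow_of_exponent_ge hd (by linarith) (by norm_num)
      have h5 := norm_add_le
        (CC f ((x + 2 * ((t - x) / 2) - s : ℝ) + (δ + s : ℝ) * I) - a t) (a t - a x)
      rw [sub_add_sub_cancel] at h5
      nlinarith [mul_le_mul_of_nonneg_left h2 hC0, mul_le_mul_of_nonneg_left h4 hH])
  rw [show x + 2 * ((t - x) / 2) = t by ring] at k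
  have e : (2 : ℂ) * (((t - x) / 2 : ℝ) : ℂ) = t - x := by push_cast; ring
  rw [e] at k
  refine k.trans (le_of_eq ?_)
  rw [show (7 / 5 : ℝ) = 2 / 5 + 1 by norm_num, Real.rpow_add hd, Real.rpow_one]
  ring

lemma CC_line {f : ℝ → ℂ} (hf : L2 f) {δ : ℝ} (hδ : 0 < δ) :
    Continuous (fun s : ℝ => CC f (s + δ * I)) :=
  (CC_diff hf).continuousOn.comp_continuous (by fun_prop) (fun s => by simp [UH, hδ])

lemma step2 {ε : ℝ} {f a : ℝ → ℂ} {H : ℝ} (hf : L2 f) (hg : Good ε f a H) {S E : Set ℝ}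
    (hBV : BV f a E)
    (hBV' : BV (fun u => (starRingEnd ℂ) (f u)) (fun t => (starRingEnd ℂ) (a t)) E)
    {r0 : ℝ} (hr : r0 ≤ 1) (hD : Dens S E r0) :
    ∃ C : ℝ, 0 ≤ C ∧ ∀ x ∈ S, ∀ t ∈ S, 21 * |t - x| ≤ r0 →
      ‖∫ u in x..t, f u‖ ≤ C * |t - x| ^ (7 / 5 : ℝ) := by
  obtain ⟨C, hC0, hC⟩ := step2a hf hg hBV hr hD
  obtain ⟨C', hC0', hC'⟩ := step2a (L2_conj hf) hg.conj hBV' hr hD
  have key : ∀ x ∈ S, ∀ t ∈ S, x < t → 21 * (t - x) ≤ r0 →
      ‖∫ u in x..t, f u‖ ≤ (C + C') * (t - x) ^ (7 / 5 : ℝ) := by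
    intro x hx t ht hxt h21
    have h1 := (pois_lim hf hxt).norm
    have h2 : ‖2 * Real.pi * I * ∫ u in x..t, f u‖ ≤ (C + C') * (t - x) ^ (7 / 5 : ℝ) := by
      refine le_of_tendsto h1 ?_
      filter_upwards [Ioo_mem_nhdsGT (show 0 < (t - x) / 2 by linarith)] with δ hδ
      have k1 := hC x hx t ht hxt h21 δ hδ.1 hδ.2.le
      have k2 := hC' x hx t ht hxt h21 δ hδ.1 hδ.2.le
      have cc : Continuous (fun s : ℝ =>
          (starRingEnd ℂ) (CC (fun u => (starRingEnd ℂ) (f u)) (s + δ * I))) :=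
        Complex.continuous_conj.comp (CC_line (L2_conj hf) hδ.1)
      rw [intervalIntegral.integral_sub ((CC_line hf hδ.1).intervalIntegrable _ _)
        (cc.intervalIntegrable _ _), ii_conj]
      rw [← Complex.norm_conj] at k2
      have k3 := norm_sub_le_of_le k1 k2
      refine le_trans (le_of_eq ?_) (k3.trans (le_of_eq (by ring)))
      congr 1
      simp
    rw [norm_mul, norm_mul, norm_mul, Complex.norm_I, Complex.norm_real, Complex.norm_ofNat,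
      Real.norm_of_nonneg Real.pi_pos.le] at h2
    nlinarith [Real.pi_gt_three, norm_nonneg (∫ u in x..t, f u)]
  refine ⟨C + C', by positivity, fun x hx t ht h21 => ?_⟩
  rcases lt_trichotomy x t with h | h | h
  · rw [abs_of_pos (by linarith)] at h21 ⊢; exact key x hx t ht h h21
  · subst h; simp
  · rw [abs_sub_comm, abs_of_pos (by linarith)] at h21 ⊢
    rw [intervalIntegral.integral_symm, norm_neg]; exact key t ht x hx h h21

lemma step3 {ε : ℝ} (hε : 0 < ε) {f a : ℝ → ℂ} {H : ℝ} (hf : L2 f) (hg : Good ε f a H)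
    {S1 S2 E : Set ℝ} (hBV : BV f a E)
    (hBV' : BV (fun u => (starRingEnd ℂ) (f u)) (fun t => (starRingEnd ℂ) (a t)) E)
    {r1 r2 : ℝ} (hr : r1 ≤ 1) (h1 : S1 ⊆ E) (h2 : S2 ⊆ S1) (hD1 : Dens S1 E r1)
    (hD2 : Dens S2 S1 r2) :
    ∃ C : ℝ, 0 ≤ C ∧ ∀ x0 ∈ S2, ∀ x y : ℝ, 0 < y → 441 * y ≤ r1 → 21 * y ≤ r2 → |x - x0| ≤ y →
      ‖CC f (x + y * I) - a x0 - (-(ε * a x0)) * (x + y * I - x0)‖ ≤ C * y ^ (121 / 100 : ℝ) := by
  obtain ⟨C2, hC20, hC2⟩ := step2 hf hg hBV hBV' hr hD1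
  have hH := hg.h0
  obtain ⟨C, hC0, hC⟩ := core hf (H := (1 + ε) * H) (A := H * (C2 + 1)) (by positivity)
    (by positivity) (show (0 : ℝ) ≤ 7 / 5 by norm_num)
  refine ⟨C, hC0, fun x0 hx0 x y hy hy1 hy2 hx => ?_⟩
  have g1 := hg.g1 x0
  have := hC a S1 (hBV.mono h1) (a x0) (-(ε * a x0)) x0 x y (by nlinarith) (by
      rw [norm_neg, norm_mul, Complex.norm_real, Real.norm_of_nonneg hε.le]; nlinarith)
    hy (by linarith) hx (hD2.at hx0 hy hy2) (fun t ht htx => by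
      have k1 := hg.g3 x0 t (by linarith)
      have k2 := hC2 x0 (h2 hx0) t ht (by linarith)
      have k3 : |t - x0| ^ (7 / 5 : ℝ) ≤ (21 * y) ^ (7 / 5 : ℝ) :=
        Real.rpow_le_rpow (abs_nonneg _) htx.le (by norm_num)
      have k4 : |t - x0| ^ (3 / 2 : ℝ) ≤ (21 * y) ^ (7 / 5 : ℝ) :=
        (Real.rpow_le_rpow (abs_nonneg _) htx.le (by norm_num)).trans
          (Real.rpow_le_rpow_of_exponent_ge (by positivity) (by linarith) (by norm_num))
      have e : a t - a x0 - -(ε * a x0) * (t - x0) = a t - a x0 * (1 - ε * (t - x0)) := by ring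
      rw [e]
      refine k1.trans ?_
      rw [mul_assoc]
      gcongr
      nlinarith [mul_le_mul_of_nonneg_left k3 hC20])
  convert this using 3
  norm_num

/-- The function `F' + ε F`. -/
noncomputable def WW (ε : ℝ) (f : ℝ → ℂ) (z : ℂ) : ℂ := deriv (CC f) z + ε * CC f z

lemma step4 {ε : ℝ} (hε : 0 < ε) {f a : ℝ → ℂ} {H : ℝ} (hf : L2 f) (hg : Good ε f a H)
    {S1 S2 E : Set ℝ} (hBV : BV f a E)
    (hBV' : BV (fun u => (starRingEnd ℂ) (f u)) (fun t => (starRingEnd ℂ) (a t)) E)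
    {r1 r2 : ℝ} (hr : r1 ≤ 1) (h1 : S1 ⊆ E) (h2 : S2 ⊆ S1) (hD1 : Dens S1 E r1)
    (hD2 : Dens S2 S1 r2) :
    ∃ C : ℝ, 0 ≤ C ∧ ∀ x0 ∈ S2, ∀ y : ℝ, 0 < y → 882 * y ≤ r1 → 42 * y ≤ r2 →
      ‖WW ε f (x0 + y * I)‖ ≤ C * y ^ (21 / 100 : ℝ) := by
  obtain ⟨C1, hC10, hC1⟩ := step1 hf hg hBV hr hD1
  obtain ⟨C3, hC30, hC3⟩ := step3 hε hf hg hBV hBV' hr h1 h2 hD1 hD2
  refine ⟨2 * C3 * 2 ^ (121 / 100 : ℝ) + ε * C1, by positivity, fun x0 hx0 y hy hy1 hy2 => ?_⟩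
  have hcb : ∀ w ∈ Metric.closedBall ((x0 : ℂ) + y * I) (y / 2),
      |w.re - x0| ≤ y / 2 ∧ y / 2 ≤ w.im ∧ w.im ≤ 2 * y := by
    intro w hw
    rw [Metric.mem_closedBall, dist_eq_norm] at hw
    have a1 := (Complex.abs_re_le_norm _).trans hw
    have a2 := abs_le.mp ((Complex.abs_im_le_norm _).trans hw)
    simp only [sub_re, add_re, ofReal_re, mul_re, I_re, mul_zero, ofReal_im, I_im, mul_one,
      sub_self, add_zero, sub_im, add_im, mul_im, zero_add] at a1 a2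
    exact ⟨a1, by linarith [a2.1], by linarith [a2.2]⟩
  have hΦ : DifferentiableOn ℂ (fun w => CC f w - a x0 - (-(ε * a x0)) * (w - x0)) UH :=
    ((CC_diff hf).sub_const _).sub (by fun_prop)
  have hdc : DiffContOnCl ℂ (fun w => CC f w - a x0 - (-(ε * a x0)) * (w - x0))
      (Metric.ball ((x0 : ℂ) + y * I) (y / 2)) := by
    apply DifferentiableOn.diffContOnCl
    rw [closure_ball _ (by positivity)]
    exact hΦ.mono fun w hw => by
      have := (hcb w hw).2.1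
      show 0 < w.im
      linarith
  have k1 := Complex.norm_deriv_le_of_forall_mem_sphere_norm_le (half_pos hy) hdc
    (C := C3 * (2 * y) ^ (121 / 100 : ℝ)) (fun w hw => by
      obtain ⟨b1, b2, b3⟩ := hcb w (Metric.sphere_subset_closedBall hw)
      have := hC3 x0 hx0 w.re w.im (by linarith) (by linarith) (by linarith) (by linarith)
      rw [Complex.re_add_im] at this
      refine this.trans ?_
      have : 0 ≤ w.im := by linarith
      gcongr)
  have hz : 0 < ((x0 : ℂ) + y * I).im := by simpa using hy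
  have hder : deriv (fun w => CC f w - a x0 - (-(ε * a x0)) * (w - x0)) (x0 + y * I) =
      deriv (CC f) (x0 + y * I) + ε * a x0 := by
    have d1 := (CC_hasDeriv hf hz).differentiableAt.hasDerivAt
    have d2 := (d1.sub_const (a x0)).sub
      (((hasDerivAt_id ((x0 : ℂ) + y * I)).sub_const (x0 : ℂ)).const_mul (-(ε * a x0)))
    have d3 : HasDerivAt (fun w => CC f w - a x0 - (-(ε * a x0)) * (w - x0))
        (deriv (CC f) (x0 + y * I) - -(ε * a x0) * 1) (x0 + y * I) := d2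
    rw [d3.deriv]; ring
  rw [hder] at k1
  have k2 := hC1 x0 (h2 hx0) x0 y hy (by linarith) (by simpa using hy.le)
  have k3 : y ^ (2 / 5 : ℝ) ≤ y ^ (21 / 100 : ℝ) :=
    Real.rpow_le_rpow_of_exponent_ge hy (by linarith) (by norm_num)
  have e : WW ε f (x0 + y * I) = (deriv (CC f) (x0 + y * I) + ε * a x0) +
      ε * (CC f (x0 + y * I) - a x0) := by unfold WW; ring
  have e2 : C3 * (2 * y) ^ (121 / 100 : ℝ) / (y / 2) =
      2 * C3 * 2 ^ (121 / 100 : ℝ) * y ^ (21 / 100 : ℝ) := by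
    rw [Real.mul_rpow (by norm_num) hy.le,
      show (121 / 100 : ℝ) = 21 / 100 + 1 by norm_num, Real.rpow_add hy, Real.rpow_one]
    field_simp
  rw [e2] at k1
  rw [e]
  refine (norm_add_le _ _).trans ?_
  rw [norm_mul, Complex.norm_real, Real.norm_of_nonneg hε.le]
  have k4 : ε * ‖CC f (x0 + y * I) - a x0‖ ≤ ε * (C1 * y ^ (21 / 100 : ℝ)) := by
    gcongr; exact k2.trans (by gcongr)
  linarith

end Pool.Agent.H.MP_0e9c6a_an
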