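import Pool.Agent.H.MP_0e9c6a_an.Jen

set_option autoImplicit false
set_option maxHeartbeats 400000
open MeasureTheory Complex Set Filter Topology

namespace Pool.Agent.H.MP_0e9c6a_an

noncomputable def TT (x y t : ℝ) : ℝ := Real.pi + 2 * Real.arctan ((t - x) / y)

lemma TT_tt (x : ℝ) {y θ : ℝ} (hy : 0 < y) (h0 : 0 < θ) (h1 : θ < 2 * Real.pi) :
    TT x y (tt x y θ) = θ := by
  unfold TT tt
  have : (x + y * Real.tan ((θ - Real.pi) / 2) - x) / y = Real.tan ((θ - Real.pi) / 2) := by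
    field_simp; ring
  rw [this, Real.arctan_tan (by linarith) (by linarith)]
  ring

lemma TT_lip (x : ℝ) {y : ℝ} (hy : 0 < y) : LipschitzWith (Real.toNNReal (2 / y)) (TT x y) := by
  have hd : ∀ t, HasDerivAt (TT x y) (2 * (1 / (1 + ((t - x) / y) ^ 2) * (1 / y))) t := by
    intro t
    have h1 : HasDerivAt (fun t => (t - x) / y) (1 / y) t :=
      ((hasDerivAt_id t).sub_const x).div_const y
    exact (h1.arctan.const_mul 2).const_add Real.pi
  apply lipschitzWith_of_nnnorm_deriv_le (fun t => (hd t).differentiableAt)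
  intro t
  rw [(hd t).deriv, ← NNReal.coe_le_coe, coe_nnnorm, Real.coe_toNNReal _ (by positivity),
    Real.norm_of_nonneg (by positivity)]
  have h2 : 1 / (1 + ((t - x) / y) ^ 2) ≤ 1 := by
    rw [div_le_one (by positivity)]; nlinarith [sq_nonneg ((t - x) / y)]
  have h3 : 0 < 1 / y := by positivity
  calc 2 * (1 / (1 + ((t - x) / y) ^ 2) * (1 / y)) ≤ 2 * (1 * (1 / y)) := by gcongr
    _ = 2 / y := by ring

lemma TT_image (x : ℝ) {y : ℝ} (hy : 0 < y) (A : Set ℝ) :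
    volume (TT x y '' A) ≤ ENNReal.ofReal (2 / y) * volume A := by
  have := (TT_lip x hy).hausdorffMeasure_image_le (d := 1) zero_le_one A
  rw [MeasureTheory.hausdorffMeasure_real, ENNReal.rpow_one] at this
  exact this

lemma tt_mid (x : ℝ) {y θ : ℝ} (hy : 0 < y) (h0 : 1 / 10 ≤ θ) (h1 : θ ≤ 2 * Real.pi - 1 / 10) :
    |tt x y θ - x| < 20 * y := by
  have hpi := Real.pi_gt_three
  have ht : Real.tan (Real.pi / 2 - 1 / 20) < 20 := by
    rw [Real.tan_pi_div_two_sub]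
    have := Real.lt_tan (x := 1 / 20) (by norm_num) (by linarith)
    rw [inv_lt_comm₀ (by linarith) (by norm_num)]
    linarith
  have hm := Real.strictMonoOn_tan.monotoneOn
  have h2 : Real.tan ((θ - Real.pi) / 2) ≤ Real.tan (Real.pi / 2 - 1 / 20) :=
    hm ⟨by linarith, by linarith⟩ ⟨by linarith, by linarith⟩ (by linarith)
  have h3 : Real.tan (-((θ - Real.pi) / 2)) ≤ Real.tan (Real.pi / 2 - 1 / 20) :=
    hm ⟨by linarith, by linarith⟩ ⟨by linarith, by linarith⟩ (by linarith)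
  rw [Real.tan_neg] at h3
  unfold tt
  rw [add_sub_cancel_left, abs_mul, abs_of_pos hy, mul_comm]
  have : |Real.tan ((θ - Real.pi) / 2)| < 20 := abs_lt.mpr ⟨by linarith, by linarith⟩
  exact mul_lt_mul_of_pos_right this hy

lemma two_const0 {Ψ : ℂ → ℂ} (hΨ : DifferentiableOn ℂ Ψ UH) {Λ : ℝ} (hΛ : 1 ≤ Λ)
    (hb : ∀ z ∈ UH, ‖Ψ z‖ ≤ Λ) {x0 x y : ℝ} (hy : 0 < y) (hx : |x - x0| ≤ y) {G : Set ℝ}
    (hG : volume (Ioo (x0 - 21 * y) (x0 + 21 * y) \ G) ≤ ENNReal.ofReal (y / 5))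
    (hl : ∀ t ∈ G, ∀ᶠ δ : ℝ in 𝓝[>] 0, ‖Ψ (t + δ * I)‖ ≤ 1) :
    Real.log ‖Ψ (x + y * I)‖ ≤ 1 / 10 * Real.log Λ := by
  have hpi := Real.pi_gt_three
  have hL : 0 ≤ Real.log Λ := Real.log_nonneg hΛ
  by_cases hz : Ψ (x + y * I) = 0
  · rw [hz, norm_zero, Real.log_zero]; positivity
  set B : Set ℝ := toMeasurable volume (TT x y '' (Ioo (x0 - 21 * y) (x0 + 21 * y) \ G)) ∪
    (Ioo 0 (1 / 10) ∪ Ioo (2 * Real.pi - 1 / 10) (2 * Real.pi)) with hB
  have hBm : MeasurableSet B :=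
    (measurableSet_toMeasurable _ _).union (measurableSet_Ioo.union measurableSet_Ioo)
  have hBv : volume B ≤ ENNReal.ofReal (3 / 5) := by
    have e1 : volume (toMeasurable volume (TT x y '' (Ioo (x0 - 21 * y) (x0 + 21 * y) \ G))) ≤
        ENNReal.ofReal (2 / 5) := by
      rw [measure_toMeasurable]
      refine (TT_image x hy _).trans ?_
      calc ENNReal.ofReal (2 / y) * volume (Ioo (x0 - 21 * y) (x0 + 21 * y) \ G)
          ≤ ENNReal.ofReal (2 / y) * ENNReal.ofReal (y / 5) := by gcongr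
        _ = ENNReal.ofReal (2 / 5) := by
          rw [← ENNReal.ofReal_mul (by positivity)]; congr 1; field_simp
    have e2 : volume (Ioo (0 : ℝ) (1 / 10) ∪ Ioo (2 * Real.pi - 1 / 10) (2 * Real.pi)) ≤
        ENNReal.ofReal (1 / 5) := by
      refine (measure_union_le _ _).trans ?_
      rw [Real.volume_Ioo, Real.volume_Ioo, ← ENNReal.ofReal_add (by norm_num) (by norm_num)]
      apply ENNReal.ofReal_le_ofReal; norm_num
    refine (measure_union_le _ _).trans ((add_le_add e1 e2).trans ?_)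
    rw [← ENNReal.ofReal_add (by norm_num) (by norm_num)]
    apply ENNReal.ofReal_le_ofReal; norm_num
  have hgood : ∀ θ : ℝ, 0 < θ → θ < 2 * Real.pi → θ ∉ B → tt x y θ ∈ G := by
    intro θ h0 h1 hθ
    by_contra hn
    apply hθ
    by_cases a1 : θ < 1 / 10
    · exact Or.inr (Or.inl ⟨h0, a1⟩)
    by_cases a2 : 2 * Real.pi - 1 / 10 < θ
    · exact Or.inr (Or.inr ⟨a2, h1⟩)
    left
    apply subset_toMeasurable
    refine ⟨tt x y θ, ⟨?_, hn⟩, TT_tt x hy h0 h1⟩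
    have := abs_lt.mp (tt_mid x hy (not_lt.mp a1) (not_lt.mp a2))
    have h4 := abs_le.mp hx
    constructor <;> linarith [this.1, this.2, h4.1, h4.2]
  set N : ℝ → ℝ → ℝ := fun δ θ => Real.posLog ‖Ψ (tt x y θ + δ * I)‖ with hN
  have hmem : ∀ (t δ : ℝ), 0 < δ → ((t : ℂ) + δ * I) ∈ UH := by
    intro t δ hδ; simp [UH, hδ]
  have hNb : ∀ δ : ℝ, 0 < δ → ∀ θ, N δ θ ≤ Real.log Λ := by
    intro δ hδ θ
    have := Real.posLog_le_posLog (norm_nonneg _) (hb _ (hmem (tt x y θ) δ hδ))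
    rwa [Real.posLog_eq_log (x := Λ) (by rwa [abs_of_pos (by linarith)])] at this
  have hN0 : ∀ δ θ, 0 ≤ N δ θ := fun _ _ => Real.posLog_nonneg
  have hNm : ∀ δ : ℝ, 0 < δ → Measurable (N δ) := by
    intro δ hδ
    have c1 : Continuous (fun t : ℝ => Ψ (t + δ * I)) :=
      hΨ.continuousOn.comp_continuous (by fun_prop) (fun t => hmem t δ hδ)
    have m2 : Measurable (tt x y) := by
      unfold tt
      simp only [Real.tan_eq_sin_div_cos]
      fun_prop
    exact (Real.continuous_posLog.comp c1.norm).measurable.comp m2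
  have hNi : ∀ δ : ℝ, 0 < δ → ∀ A : Set ℝ, MeasurableSet A →
      IntervalIntegrable (A.indicator (N δ)) volume 0 (2 * Real.pi) := by
    intro δ hδ A hA
    refine (intervalIntegrable_const (c := Real.log Λ)).mono_fun'
      ((hNm δ hδ).indicator hA).aestronglyMeasurable (ae_of_all _ fun θ => ?_)
    beta_reduce
    refine (norm_indicator_le_norm_self _ _).trans ?_
    rw [Real.norm_of_nonneg (hN0 _ _)]; exact hNb δ hδ θ
  have hsplit : ∀ δ : ℝ, 0 < δ → ∫ θ in (0 : ℝ)..2 * Real.pi, N δ θ ≤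
      3 / 5 * Real.log Λ + ∫ θ in (0 : ℝ)..2 * Real.pi, Bᶜ.indicator (N δ) θ := by
    intro δ hδ
    have e : ∀ θ, N δ θ = B.indicator (N δ) θ + Bᶜ.indicator (N δ) θ := by
      intro θ; rw [Set.indicator_self_add_compl_apply]
    rw [intervalIntegral.integral_congr (fun θ _ => e θ),
      intervalIntegral.integral_add (hNi δ hδ B hBm) (hNi δ hδ Bᶜ hBm.compl)]
    gcongr
    rw [intervalIntegral.integral_of_le (by positivity), integral_indicator hBm,
      Measure.restrict_restrict hBm]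
    have hfin : volume (B ∩ Ioc 0 (2 * Real.pi)) ≤ ENNReal.ofReal (3 / 5) :=
      (measure_mono inter_subset_left).trans hBv
    have h5 := norm_setIntegral_le_of_norm_le_const (μ := volume) (s := B ∩ Ioc 0 (2 * Real.pi))
      (f := N δ) (C := Real.log Λ) (hfin.trans_lt ENNReal.ofReal_lt_top) (fun θ _ => by
        rw [Real.norm_of_nonneg (hN0 _ _)]; exact hNb δ hδ θ)
    have h6 : volume.real (B ∩ Ioc 0 (2 * Real.pi)) ≤ 3 / 5 :=
      ENNReal.toReal_le_of_le_ofReal (by norm_num) hfin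
    calc _ ≤ _ := le_abs_self _
      _ ≤ Real.log Λ * volume.real (B ∩ Ioc 0 (2 * Real.pi)) := h5
      _ ≤ Real.log Λ * (3 / 5) := by gcongr
      _ = _ := by ring
  have hlim : Tendsto (fun δ : ℝ => ∫ θ in (0 : ℝ)..2 * Real.pi, Bᶜ.indicator (N δ) θ) (𝓝[>] 0)
      (𝓝 (∫ θ in (0 : ℝ)..2 * Real.pi, (0 : ℝ))) := by
    apply intervalIntegral.tendsto_integral_filter_of_dominated_convergence
      (fun _ => Real.log Λ)
    · filter_upwards [self_mem_nhdsWithin] with δ hδ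
      exact ((hNm δ hδ).indicator hBm.compl).aestronglyMeasurable
    · filter_upwards [self_mem_nhdsWithin] with δ hδ
      refine ae_of_all _ fun θ _ => ?_
      refine (norm_indicator_le_norm_self _ _).trans ?_
      rw [Real.norm_of_nonneg (hN0 _ _)]; exact hNb δ hδ θ
    · exact intervalIntegrable_const
    · have hae : ∀ᵐ θ : ℝ, θ ≠ 2 * Real.pi := by
        rw [ae_iff]; simp
      filter_upwards [hae] with θ hθ hθI
      rw [uIoc_of_le (by positivity)] at hθI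
      have hθ2 : θ < 2 * Real.pi := lt_of_le_of_ne hθI.2 hθ
      by_cases hθB : θ ∈ B
      · have : ∀ δ, Bᶜ.indicator (N δ) θ = 0 := fun δ =>
          indicator_of_notMem (by simpa using hθB) _
        simp only [this]; exact tendsto_const_nhds
      · refine tendsto_const_nhds.congr' ?_
        filter_upwards [hl _ (hgood θ hθI.1 hθ2 hθB)] with δ hδ
        rw [indicator_of_mem (by simpa using hθB)]
        symm
        rw [hN]; beta_reduce
        rw [Real.posLog_eq_zero_iff, abs_norm]; exact hδ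
  rw [intervalIntegral.integral_zero] at hlim
  have hL2 : Tendsto (fun δ : ℝ => Real.log ‖Ψ (x + y * I + δ * I)‖) (𝓝[>] 0)
      (𝓝 (Real.log ‖Ψ (x + y * I)‖)) := by
    have c1 : ContinuousAt Ψ (x + y * I) :=
      hΨ.continuousOn.continuousAt (isOpen_UH.mem_nhds (hmem x y hy))
    have c2 : Tendsto (fun δ : ℝ => (x : ℂ) + y * I + δ * I) (𝓝 0) (𝓝 (x + y * I)) := by
      have : Continuous (fun δ : ℝ => (x : ℂ) + y * I + δ * I) := by fun_prop
      simpa using this.tendsto 0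
    have c3 := ((c1.tendsto.comp c2).norm.log (norm_ne_zero_iff.mpr hz)).mono_left
      (nhdsWithin_le_nhds (s := Ioi (0 : ℝ)))
    simpa only [Function.comp_def] using c3
  have hfin : Real.log ‖Ψ (x + y * I)‖ ≤ (2 * Real.pi)⁻¹ * (3 / 5 * Real.log Λ + 0) := by
    refine le_of_tendsto_of_tendsto hL2
      ((hlim.const_add (3 / 5 * Real.log Λ)).const_mul (2 * Real.pi)⁻¹) ?_
    filter_upwards [self_mem_nhdsWithin] with δ hδ
    refine (jensen_half hΨ hb x hy hδ).trans ?_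
    have := hsplit δ hδ
    gcongr
  refine hfin.trans ?_
  have : (2 * Real.pi)⁻¹ ≤ 1 / 6 := by
    rw [inv_le_comm₀ (by positivity) (by norm_num)]; linarith
  nlinarith

/-- Two constants estimate for bounded functions. -/
lemma two_const {Ψ : ℂ → ℂ} (hΨ : DifferentiableOn ℂ Ψ UH) {Λ s : ℝ} (hs : 0 < s) (hΛ : s ≤ Λ)
    (hb : ∀ z ∈ UH, ‖Ψ z‖ ≤ Λ) {x0 x y : ℝ} (hy : 0 < y) (hx : |x - x0| ≤ y) {G : Set ℝ}
    (hG : volume (Ioo (x0 - 21 * y) (x0 + 21 * y) \ G) ≤ ENNReal.ofReal (y / 5))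
    (hl : ∀ t ∈ G, ∀ᶠ δ : ℝ in 𝓝[>] 0, ‖Ψ (t + δ * I)‖ ≤ s) :
    ‖Ψ (x + y * I)‖ ≤ s ^ (9 / 10 : ℝ) * Λ ^ (1 / 10 : ℝ) := by
  have hΛ0 : 0 < Λ := lt_of_lt_of_le hs hΛ
  have hn : ∀ z, ‖Ψ z / s‖ = ‖Ψ z‖ / s := by
    intro z; rw [norm_div, Complex.norm_real, Real.norm_of_nonneg hs.le]
  have h := two_const0 (Ψ := fun z => Ψ z / s) (hΨ.div_const _) (Λ := Λ / s)
    ((one_le_div hs).mpr hΛ) (fun z hz => by rw [hn]; gcongr; exact hb z hz) hy hx hG
    (fun t ht => by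
      filter_upwards [hl t ht] with δ hδ
      rw [hn, div_le_one hs]; exact hδ)
  beta_reduce at h
  rw [hn] at h
  rcases (norm_nonneg (Ψ (x + y * I))).eq_or_lt with h0 | h0
  · rw [← h0]; positivity
  · rw [Real.log_div h0.ne' hs.ne', Real.log_div hΛ0.ne' hs.ne'] at h
    rw [← Real.log_le_log_iff h0 (by positivity), Real.log_mul (by positivity) (by positivity),
      Real.log_rpow hs, Real.log_rpow hΛ0]
    linarith

/-- Two constants estimate for functions dominated by four functions with nonnegative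
imaginary part. -/
lemma two_const' {Φ Q1 Q2 Q3 Q4 : ℂ → ℂ} (hΦ : DifferentiableOn ℂ Φ UH)
    (h1 : DifferentiableOn ℂ Q1 UH) (h2 : DifferentiableOn ℂ Q2 UH)
    (h3 : DifferentiableOn ℂ Q3 UH) (h4 : DifferentiableOn ℂ Q4 UH)
    (i1 : ∀ z ∈ UH, 0 ≤ (Q1 z).im) (i2 : ∀ z ∈ UH, 0 ≤ (Q2 z).im)
    (i3 : ∀ z ∈ UH, 0 ≤ (Q3 z).im) (i4 : ∀ z ∈ UH, 0 ≤ (Q4 z).im)
    {K lam s : ℝ} (hs : 0 < s) (hlam : 1 ≤ lam) (hK : 0 ≤ K) (hsl : s ≤ 5 * K * lam)
    (hb : ∀ z ∈ UH, ‖Φ z‖ ≤ K * (1 + ‖Q1 z‖ + ‖Q2 z‖ + ‖Q3 z‖ + ‖Q4 z‖))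
    {x0 x y : ℝ} (hy : 0 < y) (hx : |x - x0| ≤ y)
    (b1 : ‖Q1 (x + y * I)‖ ≤ lam) (b2 : ‖Q2 (x + y * I)‖ ≤ lam)
    (b3 : ‖Q3 (x + y * I)‖ ≤ lam) (b4 : ‖Q4 (x + y * I)‖ ≤ lam) {G : Set ℝ}
    (hG : volume (Ioo (x0 - 21 * y) (x0 + 21 * y) \ G) ≤ ENNReal.ofReal (y / 5))
    (hl : ∀ t ∈ G, ∀ᶠ δ : ℝ in 𝓝[>] 0, ‖Φ (t + δ * I)‖ ≤ s) :
    ‖Φ (x + y * I)‖ ≤ 16 * (s ^ (9 / 10 : ℝ) * (5 * K * lam) ^ (1 / 10 : ℝ)) := by
  have hl0 : 0 < lam := by linarith
  have key : ∀ q : ℂ, 0 ≤ q.im → 1 ≤ ‖q / lam + I‖ ∧ ‖q‖ ≤ lam * ‖q / lam + I‖ := by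
    intro q hq
    have e : q / lam + I = (q + lam * I) / lam := by
      have : (lam : ℂ) ≠ 0 := by exact_mod_cast hl0.ne'
      field_simp
    have hn : ‖q / lam + I‖ = ‖q + lam * I‖ / lam := by
      rw [e, norm_div, Complex.norm_real, Real.norm_of_nonneg hl0.le]
    have hsq : ‖q + lam * I‖ ^ 2 = q.re ^ 2 + (q.im + lam) ^ 2 := by
      rw [← Complex.normSq_eq_norm_sq, Complex.normSq_apply]; simp; ring
    have hq2 : ‖q‖ ^ 2 = q.re ^ 2 + q.im ^ 2 := by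
      rw [← Complex.normSq_eq_norm_sq, Complex.normSq_apply]; ring
    constructor
    · rw [hn, one_le_div hl0]
      apply le_of_sq_le_sq _ (norm_nonneg _)
      nlinarith [sq_nonneg q.re]
    · rw [hn, mul_div_cancel₀ _ hl0.ne']
      apply le_of_sq_le_sq _ (norm_nonneg _)
      nlinarith [sq_nonneg q.re]
  set D : ℂ → ℂ := fun z => (Q1 z / lam + I) * (Q2 z / lam + I) * (Q3 z / lam + I) *
    (Q4 z / lam + I) with hD
  have hDn : ∀ z, ‖D z‖ = ‖Q1 z / lam + I‖ * ‖Q2 z / lam + I‖ * ‖Q3 z / lam + I‖ *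
      ‖Q4 z / lam + I‖ := by
    intro z; simp only [hD, norm_mul]
  have hD1 : ∀ z ∈ UH, 1 ≤ ‖D z‖ ∧ ‖Φ z‖ ≤ 5 * K * lam * ‖D z‖ := by
    intro z hz
    obtain ⟨a1, c1⟩ := key _ (i1 z hz)
    obtain ⟨a2, c2⟩ := key _ (i2 z hz)
    obtain ⟨a3, c3⟩ := key _ (i3 z hz)
    obtain ⟨a4, c4⟩ := key _ (i4 z hz)
    rw [hDn]
    generalize ‖Q1 z / lam + I‖ = u1 at *
    generalize ‖Q2 z / lam + I‖ = u2 at *
    generalize ‖Q3 z / lam + I‖ = u3 at *
    generalize ‖Q4 z / lam + I‖ = u4 at *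
    have p12 : 1 ≤ u1 * u2 := one_le_mul_of_one_le_of_one_le a1 a2
    have p34 : 1 ≤ u3 * u4 := one_le_mul_of_one_le_of_one_le a3 a4
    have p : 1 ≤ u1 * u2 * u3 * u4 := by
      rw [mul_assoc]; exact one_le_mul_of_one_le_of_one_le p12 p34
    have q1 : u1 ≤ u1 * u2 * u3 * u4 := by
      have : 1 ≤ u2 * (u3 * u4) := one_le_mul_of_one_le_of_one_le a2 p34
      nlinarith
    have q2 : u2 ≤ u1 * u2 * u3 * u4 := by
      have : 1 ≤ u1 * (u3 * u4) := one_le_mul_of_one_le_of_one_le a1 p34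
      nlinarith
    have q3 : u3 ≤ u1 * u2 * u3 * u4 := by
      have : 1 ≤ u1 * u2 * u4 := one_le_mul_of_one_le_of_one_le p12 a4
      nlinarith
    have q4 : u4 ≤ u1 * u2 * u3 * u4 := by
      have : 1 ≤ u1 * u2 * u3 := one_le_mul_of_one_le_of_one_le p12 a3
      nlinarith
    refine ⟨p, (hb z hz).trans ?_⟩
    generalize u1 * u2 * u3 * u4 = P at *
    have r0 : 1 ≤ lam * P := one_le_mul_of_one_le_of_one_le hlam p
    have r1 : ‖Q1 z‖ ≤ lam * P := c1.trans (by gcongr)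
    have r2 : ‖Q2 z‖ ≤ lam * P := c2.trans (by gcongr)
    have r3 : ‖Q3 z‖ ≤ lam * P := c3.trans (by gcongr)
    have r4 : ‖Q4 z‖ ≤ lam * P := c4.trans (by gcongr)
    calc _ ≤ K * (5 * (lam * P)) := by gcongr; linarith
      _ = _ := by ring
  have hDd : DifferentiableOn ℂ D UH := by
    rw [hD]
    exact (((((h1.div_const _).add_const _).mul ((h2.div_const _).add_const _)).mul
      ((h3.div_const _).add_const _)).mul ((h4.div_const _).add_const _))
  have hDne : ∀ z ∈ UH, D z ≠ 0 := by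
    intro z hz h; have := (hD1 z hz).1; rw [h, norm_zero] at this; linarith
  have hmem : ∀ (t δ : ℝ), 0 < δ → ((t : ℂ) + δ * I) ∈ UH := by
    intro t δ hδ; simp [UH, hδ]
  have h := two_const (Ψ := fun z => Φ z / D z) (hΦ.div hDd hDne) hs hsl
    (fun z hz => by
      rw [norm_div, div_le_iff₀ (by linarith [(hD1 z hz).1])]; exact (hD1 z hz).2) hy hx hG
    (fun t ht => by
      filter_upwards [hl t ht, self_mem_nhdsWithin] with δ hδ hδ0
      rw [norm_div]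
      exact (div_le_self (norm_nonneg _) (hD1 _ (hmem t δ hδ0)).1).trans hδ)
  beta_reduce at h
  have hz := hmem x y hy
  rw [norm_div, div_le_iff₀ (by linarith [(hD1 _ hz).1])] at h
  have k2 : ∀ q : ℂ, ‖q‖ ≤ lam → ‖q / lam + I‖ ≤ 2 := by
    intro q hq
    refine (norm_add_le _ _).trans ?_
    rw [norm_div, Complex.norm_real, Real.norm_of_nonneg hl0.le, Complex.norm_I]
    have := (div_le_one hl0).mpr hq
    linarith
  have hD16 : ‖D (x + y * I)‖ ≤ 16 := by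
    rw [hDn]
    calc _ ≤ (2 : ℝ) * 2 * 2 * 2 := by
          gcongr
          exacts [k2 _ b1, k2 _ b2, k2 _ b3, k2 _ b4]
      _ = 16 := by norm_num
  refine h.trans ?_
  rw [mul_comm]
  have : 0 ≤ 5 * K * lam := by positivity
  gcongr

end Pool.Agent.H.MP_0e9c6a_an
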